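import Pool.Agent.Helper68.INW.Defs
import Pool.Agent.Helper12.GR.Gen
import Pool.Agent.Helper12.GR.Spec
import Pool.Agent.Helper4.RC.Defs

set_option autoImplicit false
set_option linter.style.haveILetI false

/-!
The correlation lemma for the generator of Impagliazzo, Nisan and Wigderson: for every read-once
program, the correlation of the event that the state before the letter `t` is `u` with a mean zero
function of the letter `t` is at most the sum of the expansions of the steps times the square root
of the number of states.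
-/

namespace Helper68.INW

open Helper12.GR

open Helper4.RC (endSt ind)

/-- The state after the first `t` letters of `y`. -/
def run {S V : Type} (L : ℕ → S → V → V) (y : ℕ → S) : ℕ → V → V
  | 0, q => q
  | t + 1, q => L t (y t) (run L y t q)

lemma endSt_eq_run {S V : Type} (L : ℕ → S → V → V) (y : ℕ → S) (q : V) (t : ℕ) :
    endSt L q t (fun i : Fin t => y i) = run L y t q := by
  induction t with
  | zero => rfl
  | succ t ih =>
    rw [endSt, run]
    congr 1

lemma run_congr {S V : Type} (L : ℕ → S → V → V) {y z : ℕ → S} (q : V) {t : ℕ}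
    (h : ∀ i < t, y i = z i) : run L y t q = run L z t q := by
  induction t with
  | zero => rfl
  | succ t ih =>
    rw [run, run, h t (by omega), ih fun i hi => h i (by omega)]

lemma run_add {S V : Type} (L : ℕ → S → V → V) (y : ℕ → S) (q : V) (a b : ℕ) :
    run L y (a + b) q = run (fun i => L (a + i)) (fun i => y (a + i)) b (run L y a q) := by
  induction b with
  | zero => rfl
  | succ b ih =>
    rw [← add_assoc, run, run, ih]

lemma ind_nonneg' (P : Prop) : 0 ≤ ind P := by
  unfold ind
  split_ifs <;> norm_num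

lemma ind_le_one' (P : Prop) : ind P ≤ 1 := by
  unfold ind
  split_ifs <;> norm_num

lemma ind_sq (P : Prop) : ind P ^ 2 = ind P := by
  unfold ind
  split_ifs <;> norm_num

lemma sum_ind {V : Type} [Fintype V] (w : V) : ∑ v : V, ind (w = v) = 1 := by
  classical
  unfold ind
  rw [Finset.sum_eq_single w]
  · simp
  · intro b _ hb
    rw [if_neg fun h => hb h.symm]
  · intro h
    exact absurd (Finset.mem_univ w) h

lemma sum_ind_mul {V : Type} [Fintype V] (w : V) (F : V → ℝ) :
    ∑ v : V, ind (w = v) * F v = F w := by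
  classical
  unfold ind
  rw [Finset.sum_eq_single w]
  · simp
  · intro b _ hb
    rw [if_neg fun h => hb h.symm, zero_mul]
  · intro h
    exact absurd (Finset.mem_univ w) h

section abs

variable {X E S : Type} [Fintype X] [Fintype E]

/-- The generator `o` with the seeds `X` has correlations at most `B * sqrt (number of states)`
for the letters `t < n`. -/
def CorrLe (o : X → ℕ → S) (σ : S → ℝ) (n : ℕ) (B : ℝ) : Prop :=
  ∀ (V : Type) [Fintype V] (L : ℕ → S → V → V) (q : V) (t : ℕ), t < n → ∀ u : V,
    |av fun x => ind (run L (o x) t q = u) * σ (o x t)| ≤ B * Real.sqrt (Fintype.card V)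

lemma av_sum {ι : Type} (s : Finset ι) (f : ι → X → ℝ) :
    (av fun x => ∑ i ∈ s, f i x) = ∑ i ∈ s, av (f i) := by
  unfold av
  rw [Finset.sum_comm, Finset.smul_sum]

lemma av_abs_le (f : X → ℝ) : |av f| ≤ av fun x => |f x| := by
  have := norm_av_le f
  simpa [Real.norm_eq_abs] using this

lemma av_le_of_le {f : X → ℝ} {c : ℝ} (hc : 0 ≤ c) (h : ∀ x, f x ≤ c) : av f ≤ c := by
  rcases isEmpty_or_nonempty X with hX | hX
  · unfold av
    simp [hc]
  · have := av_mono h
    rwa [av_const] at this

/-- The step of the recursion. -/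
theorem CorrLe.step {o : X → ℕ → S} {σ : S → ℝ} {n : ℕ} {B lam : ℝ} (hB : 0 ≤ B)
    (hlam : 0 ≤ lam) (hσ : ∀ s, |σ s| ≤ 1) (h : CorrLe o σ n B) (Γ : X → E → X)
    (hΓ : ∀ f g : X → ℝ, |(av fun p : X × E => f p.1 * g (Γ p.1 p.2)) - av f * av g| ≤
      lam * Real.sqrt ((av fun x => f x ^ 2) * av fun x => g x ^ 2))
    (o' : X × E → ℕ → S) (h1 : ∀ p, ∀ t < n, o' p t = o p.1 t)
    (h2 : ∀ p, ∀ t < n, o' p (n + t) = o (Γ p.1 p.2) t) :
    CorrLe o' σ (2 * n) (B + lam) := by
  intro V _ L q t ht u
  have hV : 0 ≤ Real.sqrt (Fintype.card V) := Real.sqrt_nonneg _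
  rcases lt_or_ge t n with htn | htn
  · -- the first half
    have e1 : (av fun p : X × E => ind (run L (o' p) t q = u) * σ (o' p t)) =
        av fun p : X × E => ind (run L (o p.1) t q = u) * σ (o p.1 t) := by
      refine av_congr fun p => ?_
      rw [h1 p t htn, run_congr L q fun i hi => h1 p i (by omega)]
    have e2 : |av fun p : X × E => ind (run L (o p.1) t q = u) * σ (o p.1 t)| ≤
        |av fun x => ind (run L (o x) t q = u) * σ (o x t)| := by
      rw [av_prod]
      rcases isEmpty_or_nonempty E with hE | hE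
      · have : (av fun x : X => av fun _ : E => ind (run L (o x) t q = u) * σ (o x t)) = 0 := by
          unfold av
          simp
        rw [this, abs_zero]
        exact abs_nonneg _
      · have : (av fun x : X => av fun _ : E => ind (run L (o x) t q = u) * σ (o x t)) =
            av fun x => ind (run L (o x) t q = u) * σ (o x t) :=
          av_congr fun x => av_const _
        rw [this]
    rw [e1]
    refine (e2.trans (h V L q t htn u)).trans ?_
    nlinarith
  · obtain ⟨t', rfl⟩ := Nat.exists_eq_add_of_le htn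
    have ht' : t' < n := by omega
    -- the two functions
    set f : V → X → ℝ := fun w x => ind (run L (o x) n q = w) with hf
    set g : V → X → ℝ := fun w x =>
      ind (run (fun i => L (n + i)) (o x) t' w = u) * σ (o x t') with hg
    have e1 : (av fun p : X × E => ind (run L (o' p) (n + t') q = u) * σ (o' p (n + t'))) =
        ∑ w : V, av fun p : X × E => f w p.1 * g w (Γ p.1 p.2) := by
      rw [← av_sum]
      refine av_congr fun p => ?_
      rw [run_add, h2 p t' ht', run_congr L q fun i hi => h1 p i hi,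
        run_congr (fun i => L (n + i)) _ fun i hi => h2 p i (by omega)]
      exact (sum_ind_mul (run L (o p.1) n q) fun w => g w (Γ p.1 p.2)).symm
    have hf0 : ∀ w x, 0 ≤ f w x := fun w x => ind_nonneg' _
    have hP0 : ∀ w, 0 ≤ av (f w) := fun w => av_nonneg (hf0 w)
    have hP1 : ∑ w, av (f w) ≤ 1 := by
      rw [← av_sum]
      refine av_le_of_le zero_le_one fun x => ?_
      exact (sum_ind (run L (o x) n q)).le
    have hg2 : ∀ w, (av fun x => g w x ^ 2) ≤ 1 := by
      intro w
      refine av_le_of_le zero_le_one fun x => ?_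
      rw [hg, mul_pow, ind_sq]
      have h5 : σ (o x t') ^ 2 ≤ 1 := by
        rw [sq_le_one_iff_abs_le_one]
        exact hσ _
      calc ind (run (fun i => L (n + i)) (o x) t' w = u) * σ (o x t') ^ 2 ≤ 1 * 1 :=
            mul_le_mul (ind_le_one' _) h5 (sq_nonneg _) zero_le_one
        _ = 1 := one_mul 1
    have hmain : ∀ w, |av fun p : X × E => f w p.1 * g w (Γ p.1 p.2)| ≤
        av (f w) * (B * Real.sqrt (Fintype.card V)) + lam * Real.sqrt (av (f w)) := by
      intro w
      have h6 := hΓ (f w) (g w)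
      have h7 : |av (g w)| ≤ B * Real.sqrt (Fintype.card V) :=
        h V (fun i => L (n + i)) w t' ht' u
      have h8 : (av fun x => f w x ^ 2) = av (f w) := av_congr fun x => ind_sq _
      have h9 : Real.sqrt ((av fun x => f w x ^ 2) * av fun x => g w x ^ 2) ≤
          Real.sqrt (av (f w)) := by
        apply Real.sqrt_le_sqrt
        rw [h8]
        exact mul_le_of_le_one_right (hP0 w) (hg2 w)
      have h10 : |av (f w) * av (g w)| ≤ av (f w) * (B * Real.sqrt (Fintype.card V)) := by
        rw [abs_mul, abs_of_nonneg (hP0 w)]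
        exact mul_le_mul_of_nonneg_left h7 (hP0 w)
      have h11 := mul_le_mul_of_nonneg_left h9 hlam
      calc |av fun p : X × E => f w p.1 * g w (Γ p.1 p.2)|
          = |((av fun p : X × E => f w p.1 * g w (Γ p.1 p.2)) - av (f w) * av (g w))
              + av (f w) * av (g w)| := by
            congr 1
            ring
        _ ≤ |(av fun p : X × E => f w p.1 * g w (Γ p.1 p.2)) - av (f w) * av (g w)|
              + |av (f w) * av (g w)| := abs_add_le _ _
        _ ≤ lam * Real.sqrt (av (f w)) + av (f w) * (B * Real.sqrt (Fintype.card V)) :=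
            add_le_add (h6.trans h11) h10
        _ = _ := add_comm _ _
    have hCS : ∑ w, Real.sqrt (av (f w)) ≤ Real.sqrt (Fintype.card V) := by
      apply Real.le_sqrt_of_sq_le
      have h12 := Finset.sum_mul_sq_le_sq_mul_sq Finset.univ (fun w => Real.sqrt (av (f w)))
        fun _ : V => (1 : ℝ)
      simp only [mul_one, one_pow, Finset.sum_const, Finset.card_univ, nsmul_eq_mul] at h12
      have h13 : ∑ w, Real.sqrt (av (f w)) ^ 2 = ∑ w, av (f w) :=
        Finset.sum_congr rfl fun w _ => Real.sq_sqrt (hP0 w)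
      rw [h13] at h12
      refine h12.trans ?_
      exact mul_le_of_le_one_left (by positivity) hP1
    rw [e1]
    calc |∑ w : V, av fun p : X × E => f w p.1 * g w (Γ p.1 p.2)|
        ≤ ∑ w : V, |av fun p : X × E => f w p.1 * g w (Γ p.1 p.2)| :=
          Finset.abs_sum_le_sum_abs _ _
      _ ≤ ∑ w : V, (av (f w) * (B * Real.sqrt (Fintype.card V)) + lam * Real.sqrt (av (f w))) :=
          Finset.sum_le_sum fun w _ => hmain w
      _ = (∑ w, av (f w)) * (B * Real.sqrt (Fintype.card V))
            + lam * ∑ w, Real.sqrt (av (f w)) := by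
          rw [Finset.sum_add_distrib, ← Finset.sum_mul, ← Finset.mul_sum]
      _ ≤ 1 * (B * Real.sqrt (Fintype.card V)) + lam * Real.sqrt (Fintype.card V) :=
          add_le_add (mul_le_mul_of_nonneg_right hP1 (by positivity))
            (mul_le_mul_of_nonneg_left hCS hlam)
      _ = _ := by ring

/-- The base of the recursion. -/
lemma CorrLe.base {o : X → ℕ → S} {σ : S → ℝ} (h : (av fun x => σ (o x 0)) = 0) {B : ℝ}
    (hB : 0 ≤ B) : CorrLe o σ 1 B := by
  intro V _ L q t ht u
  have ht0 : t = 0 := by omega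
  subst ht0
  have e1 : (av fun x => ind (run L (o x) 0 q = u) * σ (o x 0)) =
      ind (q = u) * av fun x => σ (o x 0) := by
    rw [← av_mul_left]
    rfl
  rw [e1, h, mul_zero, abs_zero]
  positivity

end abs

/-! ### The generator with expanders -/

lemma mean_eq_av {V : Type} [Fintype V] (f : V → ℝ) : Helper68.INW.mean f = av f := by
  unfold Helper68.INW.mean av
  rw [smul_eq_mul, div_eq_inv_mul]

lemma vari_le {V : Type} [Fintype V] (f : V → ℝ) : vari f ≤ av fun x => f x ^ 2 := by
  unfold vari
  rw [mean_eq_av, mean_eq_av]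
  rcases isEmpty_or_nonempty V with hV | hV
  · unfold av
    simp
  · have h := av_norm_sub_sq f
    have h1 : (av fun x => (f x - av f) ^ 2) = (av fun x => f x ^ 2) - (av f) ^ 2 := by
      simpa [Real.norm_eq_abs, sq_abs] using h
    rw [h1]
    nlinarith [sq_nonneg (av f)]

lemma vari_nonneg {V : Type} [Fintype V] (f : V → ℝ) : 0 ≤ vari f := by
  unfold vari
  rw [mean_eq_av]
  exact av_nonneg fun x => sq_nonneg _

theorem corrLe_out {S : Type} [Fintype S] {d : ℕ → ℕ}
    (Γ : ∀ k, Seed S d k → Fin (d k) → Seed S d k) (lam : ℕ → ℝ) (hlam : ∀ k, 0 ≤ lam k)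
    (hΓ : ∀ k, IsExpander (Γ k) (lam k)) (σ : S → ℝ) (hσ : ∀ s, |σ s| ≤ 1)
    (hσ0 : ∑ s, σ s = 0) (k : ℕ) :
    CorrLe (out Γ k) σ (2 ^ k) (∑ j ∈ Finset.range k, lam j) := by
  induction k with
  | zero =>
    refine CorrLe.base ?_ (by simp)
    have : (∑ x : Seed S d 0, σ (out Γ 0 x 0)) = ∑ s, σ s := rfl
    unfold av
    rw [this, hσ0, smul_zero]
  | succ k ih =>
    rw [Finset.sum_range_succ, pow_succ, mul_comm]
    refine CorrLe.step (E := Fin (d k)) (Finset.sum_nonneg fun j _ => hlam j) (hlam k) hσ ih (Γ k)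
      ?_ (out Γ (k + 1)) ?_ ?_
    · intro f g
      have h := hΓ k f g
      rw [mean_eq_av, mean_eq_av, mean_eq_av] at h
      refine h.trans (mul_le_mul_of_nonneg_left ?_ (hlam k))
      apply Real.sqrt_le_sqrt
      exact mul_le_mul (vari_le f) (vari_le g) (vari_nonneg g) (av_nonneg fun x => sq_nonneg _)
    · intro p t ht
      simp [out, ht]
    · intro p t ht
      have : ¬ (2 ^ k + t < 2 ^ k) := by omega
      simp [out]

/-- **The correlation lemma** for the generator with expanders. -/
theorem corr_out {S : Type} [Fintype S] {d : ℕ → ℕ}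
    (Γ : ∀ k, Seed S d k → Fin (d k) → Seed S d k) (lam : ℕ → ℝ) (hlam : ∀ k, 0 ≤ lam k)
    (hΓ : ∀ k, IsExpander (Γ k) (lam k)) (σ : S → ℝ) (hσ : ∀ s, |σ s| ≤ 1)
    (hσ0 : ∑ s, σ s = 0) (k : ℕ) {V : Type} [Fintype V] (L : ℕ → S → V → V) (q : V) (t : ℕ)
    (ht : t < 2 ^ k) (u : V) :
    |Helper68.INW.mean fun v => ind (endSt L q t (fun i : Fin t => out Γ k v i) = u)
      * σ (out Γ k v t)| ≤
      (∑ j ∈ Finset.range k, lam j) * Real.sqrt (Fintype.card V) := by
  have h := corrLe_out Γ lam hlam hΓ σ hσ hσ0 k V L q t ht u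
  rw [mean_eq_av]
  refine le_trans (le_of_eq ?_) h
  congr 1
  refine av_congr fun x => ?_
  rw [endSt_eq_run]

/-! ### The generator with small bias steps over a field -/

section field

variable (F : Type) [Field F] [Fintype F] [Algebra (ZMod 2) F]

/-- The expansion of the steps of the generator. -/
lemma mix_step [Algebra.IsSeparable (ZMod 2) F] (N : ℕ) (f g : (Fin N → F) → ℝ) :
    |(av fun p : (Fin N → F) × (F × F) => f p.1 * g (p.1 + sh N p.2)) - av f * av g| ≤
      ((N : ℝ) / Fintype.card F) *
        Real.sqrt ((av fun x => f x ^ 2) * av fun x => g x ^ 2) := by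
  haveI : Nonempty (Fin N → F) := ⟨0⟩
  haveI : Nonempty (F × F) := ⟨0⟩
  set c : ℝ := (N : ℝ) / Fintype.card F with hc
  have hc0 : 0 ≤ c := by positivity
  set T : (Fin N → F) → ℝ := fun w => av fun e : F × F => g (w + sh N e) with hT
  have e1 : (av fun p : (Fin N → F) × (F × F) => f p.1 * g (p.1 + sh N p.2)) - av f * av g =
      av fun w => f w * (T w - av g) := by
    rw [av_prod, ← av_mul_right, ← av_sub]
    refine av_congr fun w => ?_
    have e2 : (av fun e : F × F => f w * g (w + sh N e)) = f w * T w :=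
      av_mul_left (f w) fun e : F × F => g (w + sh N e)
    change (av fun e : F × F => f w * g (w + sh N e)) - f w * av g = f w * (T w - av g)
    rw [e2, mul_sub]
  rw [e1]
  have h1 := spectral N g
  have h2 : (av fun w => (T w - av g) ^ 2) ≤ c ^ 2 * av fun x => g x ^ 2 := by
    have h3 : (av fun y => ‖(av fun e : F × F => g (y + sh N e)) - av g‖ ^ 2) =
        av fun w => (T w - av g) ^ 2 := by
      refine av_congr fun w => ?_
      rw [Real.norm_eq_abs, sq_abs]
    have h4 : (av fun y => ‖g y‖ ^ 2) = av fun x => g x ^ 2 := by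
      refine av_congr fun w => ?_
      rw [Real.norm_eq_abs, sq_abs]
    rw [h3, h4] at h1
    refine h1.trans (mul_le_mul_of_nonneg_left ?_ (sq_nonneg c))
    nlinarith [sq_nonneg ‖av g‖]
  have h5 : (av fun w => f w * (T w - av g)) ^ 2 ≤
      (c * Real.sqrt ((av fun x => f x ^ 2) * av fun x => g x ^ 2)) ^ 2 := by
    have h6 := sq_av_mul_le f fun w => T w - av g
    have hf0 : 0 ≤ av fun x => f x ^ 2 := av_nonneg fun x => sq_nonneg _
    have hg0 : 0 ≤ av fun x => g x ^ 2 := av_nonneg fun x => sq_nonneg _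
    rw [mul_pow, Real.sq_sqrt (mul_nonneg hf0 hg0)]
    calc (av fun w => f w * (T w - av g)) ^ 2
        ≤ (av fun x => f x ^ 2) * av fun w => (T w - av g) ^ 2 := h6
      _ ≤ (av fun x => f x ^ 2) * (c ^ 2 * av fun x => g x ^ 2) :=
          mul_le_mul_of_nonneg_left h2 hf0
      _ = _ := by ring
  exact abs_le_of_sq_le_sq h5 (mul_nonneg hc0 (Real.sqrt_nonneg _))

omit [Fintype F] in
lemma gen_congr (i : ℕ) : ∀ {w w' : ℕ → F} (t : ℕ), (∀ j < 2 * i + 1, w j = w' j) →
    gen i w t = gen i w' t := by
  induction i with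
  | zero =>
    intro w w' t h
    simp only [gen]
    rw [h 0 (by omega)]
  | succ i ih =>
    intro w w' t h
    simp only [gen]
    rw [ih (w := fun j => w (j + 2)) (w' := fun j => w' (j + 2)) t (fun j hj => h _ (by omega)),
      ih (w := fun j => w (j + 2) + w 1 * w 0 ^ j) (w' := fun j => w' (j + 2) + w' 1 * w' 0 ^ j)
        (t - 2 ^ i) (fun j hj => by rw [h (j + 2) (by omega), h 0 (by omega), h 1 (by omega)])]

variable {F} in
/-- The seed of a step. -/
def splitSeed (N : ℕ) : (Fin (N + 2) → F) ≃ (Fin N → F) × (F × F) where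
  toFun w := (fun j => w ⟨j + 2, by omega⟩, (w ⟨0, by omega⟩, w ⟨1, by omega⟩))
  invFun p := fun j => if h : 2 ≤ (j : ℕ) then p.1 ⟨j - 2, by omega⟩
    else if (j : ℕ) = 0 then p.2.1 else p.2.2
  left_inv w := by
    funext j
    by_cases h : 2 ≤ (j : ℕ)
    · simp only [dif_pos h]
      congr 1
      ext
      simp only
      omega
    · by_cases h0 : (j : ℕ) = 0
      · simp only [dif_neg h, if_pos h0]
        congr 1
        ext
        simp only
        omega
      · simp only [dif_neg h, if_neg h0]
        congr 1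
        ext
        simp only
        omega
  right_inv p := by
    refine Prod.ext ?_ (Prod.ext ?_ ?_)
    · funext j
      simp
    · simp
    · simp

lemma CorrLe.equiv {X X' S : Type} [Fintype X] [Fintype X'] {o : X → ℕ → S} {o' : X' → ℕ → S}
    {σ : S → ℝ} {n : ℕ} {B : ℝ} (h : CorrLe o' σ n B) (e : X ≃ X')
    (ho : ∀ x, ∀ t < n, o x t = o' (e x) t) : CorrLe o σ n B := by
  intro V _ L q t ht u
  have h1 := h V L q t ht u
  rw [← av_equiv e] at h1
  refine le_trans (le_of_eq ?_) h1
  congr 1
  refine av_congr fun x => ?_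
  rw [ho x t ht, run_congr L q fun i hi => ho x i (by omega)]

theorem corrLe_gen [Algebra.IsSeparable (ZMod 2) F] (σ : ZMod 2 → ℝ) (hσ : ∀ s, |σ s| ≤ 1)
    (hσ0 : σ 0 + σ 1 = 0) (i : ℕ) :
    CorrLe (fun w : Fin (2 * i + 1) → F => gen i (ext w)) σ (2 ^ i)
      ((i : ℝ) ^ 2 / Fintype.card F) := by
  induction i with
  | zero =>
    refine CorrLe.base ?_ (by positivity)
    have h := Pt_zero (R := ℝ) F fun _ => σ
    unfold Pt pr tOp at h
    have h2 : (av fun w : Fin (2 * 0 + 1) → F => σ (gen 0 (ext w) 0)) = av σ := h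
    change (av fun w : Fin (2 * 0 + 1) → F => σ (gen 0 (ext w) 0)) = 0
    rw [h2]
    unfold av
    have h3 : ∑ s : ZMod 2, σ s = σ 0 + σ 1 := Fin.sum_univ_two σ
    rw [h3, hσ0, smul_zero]
  | succ i ih =>
    have hF : (0 : ℝ) < Fintype.card F := by exact_mod_cast Fintype.card_pos
    have e1 : ((i + 1 : ℕ) : ℝ) ^ 2 / Fintype.card F =
        (i : ℝ) ^ 2 / Fintype.card F + ((2 * i + 1 : ℕ) : ℝ) / Fintype.card F := by
      push_cast
      ring
    rw [e1, pow_succ, mul_comm (2 ^ i) 2]
    have hstep := CorrLe.step (E := F × F) (by positivity)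
      (show (0 : ℝ) ≤ ((2 * i + 1 : ℕ) : ℝ) / Fintype.card F by positivity) hσ ih
      (fun w e => w + sh (2 * i + 1) e) (mix_step F (2 * i + 1))
      (fun p t => gen (i + 1) (ext ((splitSeed (2 * i + 1)).symm p)) t) ?_ ?_
    · refine CorrLe.equiv hstep (splitSeed (2 * i + 1)) fun x t _ => ?_
      rw [Equiv.symm_apply_apply]
    · intro p t ht
      simp only [gen]
      rw [if_pos ht]
      refine gen_congr F i t fun j hj => ?_
      unfold ext splitSeed
      simp [hj]
    · intro p t ht
      simp only [gen]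
      rw [if_neg (by omega), Nat.add_sub_cancel_left]
      refine gen_congr F i t fun j hj => ?_
      unfold ext splitSeed sh
      simp [hj]

/-- **The correlation lemma** for the generator with small bias steps. -/
theorem corr_gen [Algebra.IsSeparable (ZMod 2) F] (σ : ZMod 2 → ℝ) (hσ : ∀ s, |σ s| ≤ 1)
    (hσ0 : σ 0 + σ 1 = 0) (i : ℕ) {V : Type} [Fintype V] (L : ℕ → ZMod 2 → V → V) (q : V) (t : ℕ)
    (ht : t < 2 ^ i) (u : V) :
    |av fun w : Fin (2 * i + 1) → F => ind (endSt L q t (fun j : Fin t => gen i (ext w) j) = u)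
      * σ (gen i (ext w) t)| ≤
      ((i : ℝ) ^ 2 / Fintype.card F) * Real.sqrt (Fintype.card V) := by
  have h := corrLe_gen F σ hσ hσ0 i V L q t ht u
  refine le_trans (le_of_eq ?_) h
  congr 1
  refine av_congr fun x => ?_
  rw [endSt_eq_run]

end field

end Helper68.INW
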