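import Mathlib

set_option autoImplicit false

/-!
The generator of Impagliazzo, Nisan and Wigderson: the definitions.
-/

namespace Helper68.INW

/-- The seeds: `V 0 = S`, `V (k + 1) = V k × Fin (d k)`. -/
def Seed (S : Type) (d : ℕ → ℕ) : ℕ → Type
  | 0 => S
  | k + 1 => Seed S d k × Fin (d k)

instance Seed.fintype (S : Type) [Fintype S] (d : ℕ → ℕ) : ∀ k, Fintype (Seed S d k)
  | 0 => inferInstanceAs (Fintype S)
  | k + 1 => @instFintypeProd _ _ (Seed.fintype S d k) inferInstance

/-- The mean value. -/
noncomputable def mean {V : Type} [Fintype V] (f : V → ℝ) : ℝ := (∑ v, f v) / Fintype.card V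

/-- The variance. -/
noncomputable def vari {V : Type} [Fintype V] (f : V → ℝ) : ℝ :=
  mean fun v => (f v - mean f) ^ 2

/-- The graph on `V` with the neighbours `Γ v i` of `v`, `i < d`, is a `lam`-expander: the
covariance of `f` at a random vertex and `g` at a random neighbour is at most `lam` times the
product of the standard deviations of `f` and `g`. -/
def IsExpander {V : Type} [Fintype V] {d : ℕ} (Γ : V → Fin d → V) (lam : ℝ) : Prop :=
  ∀ f g : V → ℝ, |mean (fun p : V × Fin d => f p.1 * g (Γ p.1 p.2)) - mean f * mean g| ≤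
    lam * Real.sqrt (vari f * vari g)

/-- The letter `t < 2 ^ k` of the output of the generator: the output for `(v, i)` is the output
for `v`, followed by the output for `Γ v i`. -/
def out {S : Type} {d : ℕ → ℕ} (Γ : ∀ k, Seed S d k → Fin (d k) → Seed S d k) :
    ∀ k, Seed S d k → ℕ → S
  | 0, s, _ => s
  | k + 1, v, t => if t < 2 ^ k then out Γ k v.1 t else out Γ k (Γ k v.1 v.2) (t - 2 ^ k)

/-- The value of the program with the letters `c i : S → M` on the input `x`. -/
def value {M : Type} [Monoid M] {S : Type} {n : ℕ} (c : Fin n → S → M) (x : Fin n → S) : M :=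
  (List.ofFn fun i => c i (x i)).prod

/-- The fraction of the elements of a finite type in the set `A`. -/
noncomputable def frac {V : Type} [Fintype V] (A : Set V) : ℝ :=
  (Nat.card A : ℝ) / (Fintype.card V : ℝ)

/-- The generator fools the programs over `M` of length `2 ^ k` within `ε`. -/
def Fools {S : Type} [Fintype S] {d : ℕ → ℕ} (Γ : ∀ k, Seed S d k → Fin (d k) → Seed S d k)
    (M : Type) [Monoid M] (k : ℕ) (ε : ℝ) : Prop :=
  ∀ (c : Fin (2 ^ k) → S → M) (F : Set M),
    |frac {v : Seed S d k | value c (fun t => out Γ k v t) ∈ F}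
      - frac {x : Fin (2 ^ k) → S | value c x ∈ F}| ≤ ε

/-- Every product of idempotents of `M` which is a regular element is idempotent. -/
def IsEDA (M : Type) [Monoid M] : Prop :=
  ∀ x ∈ Submonoid.closure {e : M | e * e = e}, (∃ z : M, x * z * x = x) → x * x = x

end Helper68.INW
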