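import Pool.Agent.Helper68.INW.Defs
import Pool.Agent.Helper68.EDA.Alg
import Pool.Agent.Helper12.GR.Defs

set_option autoImplicit false

/-!
The blocks of all `J`-classes are orthodox if and only if every regular product of idempotents is
idempotent.
-/

namespace Helper68.INW

variable {M : Type} [Monoid M]

lemma orth_of_eda [Finite M] (h : IsEDA M) : Helper12.GR.Orth M := by
  have hP : Helper68.EDA.Pat M := Helper68.EDA.IsEDA.pat h
  intro x x' z z' h1 h2 h3 h4 h5 h6
  have e1 : Helper12.BI.JLe z (x * z) := h2.2.trans h5.1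
  have e2 : Helper12.BI.JLe x' (x * z) := h1.2.trans h5.1
  have e3 : Helper12.BI.JLe z' (x * z') := h3.2.trans h6.1
  exact Helper68.EDA.keyK hP (y := x) (y' := x') (w := z) (z := z') h4 h5.1 e1 e2 h6.1 e3

lemma eda_of_orth [Finite M] (h : Helper12.GR.Orth M) : IsEDA M := by
  have hP : Helper68.EDA.Pat M := by
    intro e g f he hg hf h1 h2 h3 h4
    have e1 : e * f * g = e := by rw [mul_assoc, h4, h1]
    have e2 : Helper12.BI.JEq e (e * f) := ⟨⟨1, g, by rw [one_mul, e1]⟩, ⟨1, f, by rw [one_mul]⟩⟩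
    have e3 : Helper12.BI.JEq e g := ⟨⟨e, 1, by rw [mul_one, h1]⟩, ⟨g, 1, by rw [mul_one, h2]⟩⟩
    have e4 : Helper12.BI.JEq e e := ⟨⟨1, 1, by simp⟩, ⟨1, 1, by simp⟩⟩
    have := h e (e * f) g e e2 e3 e4 (by rw [h1, e1]) (by rw [h1]; exact e4) (by rw [he]; exact e4)
    rw [this, he]
  exact hP.eda

end Helper68.INW
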