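import Pool.Agent.Helper68.INW.Node

set_option autoImplicit false
set_option linter.unusedSectionVars false

/-!
The generator fools programs over groups.
-/

namespace Helper68.INW

open scoped InnerProductSpace

section rep

variable (G : Type) [Group G] [Fintype G]

/-- The regular representation. -/
noncomputable def rep : G →* (EuclideanSpace ℝ G ≃ₗᵢ[ℝ] EuclideanSpace ℝ G) where
  toFun x := LinearIsometryEquiv.piLpCongrLeft 2 ℝ ℝ (Equiv.mulRight x).symm
  map_one' := by
    ext f h
    show f (h * 1) = f h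
    rw [mul_one]
  map_mul' x y := by
    ext f h
    show f (h * (x * y)) = f (h * x * y)
    rw [mul_assoc]

variable {G}

lemma rep_apply (x : G) (f : EuclideanSpace ℝ G) (h : G) : rep G x f h = f (h * x) := rfl

lemma coeff [DecidableEq G] (p : G → ℝ) (g : G) :
    ⟪(EuclideanSpace.single (1 : G) (1 : ℝ)), op (rep G) p (EuclideanSpace.single g (1 : ℝ))⟫_ℝ =
      p g := by
  unfold op
  rw [inner_sum]
  have : ∀ x : G, ⟪(EuclideanSpace.single (1 : G) (1 : ℝ)),
      p x • rep G x (EuclideanSpace.single g (1 : ℝ))⟫_ℝ = if x = g then p x else 0 := by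
    intro x
    rw [real_inner_smul_right, EuclideanSpace.inner_single_left, rep_apply]
    simp
  simp only [this, Finset.sum_ite_eq', Finset.mem_univ, if_true]

end rep

variable {S : Type} [Fintype S] {d : ℕ → ℕ}

lemma dst_inverse {G : Type} [Group G] [Fintype G] {Ω Ω' : Type} [Fintype Ω] [Fintype Ω'] (e : Ω ≃ Ω')
    (X : Ω' → G) : dst (fun ω => X (e ω)) = dst X := by
  classical
  funext g
  rw [dst_apply, dst_apply]
  unfold mean
  rw [Fintype.card_congr e, ← Equiv.sum_comp e fun ω' => if X ω' = g then (1 : ℝ) else 0]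

lemma gval_flat {M : Type} [Monoid M] (k : ℕ) (c : ℕ → S → M) (x : Inp S k) :
    Helper12.GR.gval (List.finRange (2 ^ k)) (fun i : Fin (2 ^ k) => c i) (flatEquiv k x) =
      ival k c x := by
  rw [ival_eq]
  unfold Helper12.GR.gval
  rw [← List.map_coe_finRange_eq_range, List.map_map]
  rfl

lemma Ud_atom [Nonempty S] {G : Type} [Group G] [Fintype G] {m : ℕ} (hm : Nat.card G ≤ m) (k : ℕ)
    (c : ℕ → S → G) (g : G) (hg : Ud k c g ≠ 0) :
    (1 / (Fintype.card S : ℝ)) ^ m ≤ Ud k c g := by
  classical
  obtain ⟨x, rfl⟩ := dst_ne_zero hg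
  have h := Helper12.GR.prob_group (P := List.finRange (2 ^ k)) (List.nodup_finRange _)
    (fun (i : Fin (2 ^ k)) => c i) (flatEquiv k x)
  rw [gval_flat] at h
  have h1 : Helper12.GR.U {y : Fin (2 ^ k) → S | Helper12.GR.gval (List.finRange (2 ^ k))
      (fun i : Fin (2 ^ k) => c i) y = ival k c x} = Ud k c (ival k c x) := by
    unfold Ud
    rw [dst_apply]
    unfold Helper12.GR.U mean
    rw [Nat.card_eq_fintype_card (α := Fin (2 ^ k) → S), ← Fintype.card_congr (flatEquiv k)]
    congr 1
    have h2 : Nat.card {y : Fin (2 ^ k) → S | Helper12.GR.gval (List.finRange (2 ^ k))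
        (fun i : Fin (2 ^ k) => c i) y = ival k c x} =
        Nat.card {y : Inp S k // ival k c y = ival k c x} := by
      apply Nat.card_congr
      symm
      refine (flatEquiv k).subtypeEquiv fun y => ?_
      show _ ↔ Helper12.GR.gval (List.finRange (2 ^ k))
        (fun i : Fin (2 ^ k) => c i) (flatEquiv k y) = ival k c x
      rw [gval_flat]
    rw [h2, Nat.card_eq_fintype_card, Fintype.card_subtype, ← Finset.sum_boole]
  rw [h1] at h
  refine le_trans ?_ h
  rw [Nat.card_eq_fintype_card (α := S)]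
  apply pow_le_pow_of_le_one (by positivity) _ hm
  have : (1 : ℝ) ≤ Fintype.card S := by exact_mod_cast Fintype.card_pos
  rw [div_le_one (by linarith)]
  exact this

/-- The generator fools programs over groups, with an error linear in the expansion. -/
theorem group_fool (S : Type) [Fintype S] [Nonempty S] (m : ℕ) : ∃ C : ℝ, 0 < C ∧
    ∀ (lam : ℝ), 0 ≤ lam → C * lam ≤ 1 → ∀ (d : ℕ → ℕ), (∀ k, 0 < d k) →
      ∀ Γ : ∀ k, Seed S d k → Fin (d k) → Seed S d k, (∀ k, IsExpander (Γ k) lam) →
      ∀ (G : Type) [Group G] [Fintype G], Nat.card G ≤ m →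
        ∀ (k : ℕ) (c : ℕ → S → G) (g : G), |Dd Γ k c g - Ud k c g| ≤ C * lam := by
  classical
  have hq : 0 < (Fintype.card S : ℝ) := by exact_mod_cast Fintype.card_pos
  have hq1 : (1 : ℝ) ≤ Fintype.card S := by exact_mod_cast Fintype.card_pos
  set α : ℝ := (1 / (Fintype.card S : ℝ)) ^ m with hα
  have hα0 : 0 < α := by positivity
  have hα1 : α ≤ 1 := pow_le_one₀ (by positivity) (by rw [div_le_one hq]; exact hq1)
  obtain ⟨C1, hC1, hb1⟩ := ssum_bound (σ := 1 / (Fintype.card S : ℝ)) (by positivity) m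
  obtain ⟨C2, hC2, hb2⟩ := ssum_bound (σ := α / 2) (by positivity) m
  set C0 := 2 * (C1 * C2) with hC0
  have hC00 : 0 ≤ C0 := by positivity
  refine ⟨C0 * (2 / α) + 1, by positivity, ?_⟩
  intro lam hlam hle d hd Γ hΓ G _ _ hm
  have h2α : 1 ≤ 2 / α := by
    rw [le_div_iff₀ hα0]
    linarith
  have hsmall : C0 * lam ≤ α / 2 := by
    have h1 : C0 * (2 / α) * lam ≤ 1 := by nlinarith
    have h2 : C0 * lam = (C0 * (2 / α) * lam) * (α / 2) := by
      field_simp
    rw [h2]
    nlinarith
  have hmain : ∀ (k : ℕ) (c : ℕ → S → G) (g : G), |Dd Γ k c g - Ud k c g| ≤ C0 * lam := by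
    intro k
    induction k using Nat.strong_induction_on with
    | _ k ih =>
      have hprop : ∀ j < k, ∀ (c : ℕ → S → G), (∀ g, Dd Γ j c g ≤ 2 * Ud j c g) ∧
          Letter (α / 2) (Dd Γ j c) := by
        intro j hj c
        have hSj : Nonempty (Seed S d j) := Seed.nonempty S d hd j
        have hU : ∀ g, Dd Γ j c g ≠ 0 → α ≤ Ud j c g := by
          intro g hg
          apply Ud_atom hm
          obtain ⟨v, rfl⟩ := dst_ne_zero hg
          exact (dst_pos (X := fun x : Inp S j => ival j c x) (tin Γ j v)).ne'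
        refine ⟨fun g => ?_, ⟨dst_nonneg _, dst_sum _, fun g hg => ?_⟩⟩
        · by_cases hg : Dd Γ j c g = 0
          · rw [hg]
            exact mul_nonneg (by norm_num) (dst_nonneg _ _)
          · have h1 := hU g hg
            have h2 := (abs_le.1 (ih j hj c g)).2
            linarith
        · have h1 := hU g hg
          have h2 := (abs_le.1 (ih j hj c g)).1
          linarith
      intro c g
      have h := err_le (ρ := rep G) hd hlam hΓ k (fun j hj c => (hprop j hj c).1) c
        (EuclideanSpace.single (1 : G) (1 : ℝ)) (EuclideanSpace.single g (1 : ℝ))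
      rw [coeff, coeff] at h
      refine h.trans ?_
      have hn : ∀ x : G, ‖(EuclideanSpace.single x (1 : ℝ) : EuclideanSpace ℝ G)‖ = 1 := by
        intro x
        simp
      have h1 := hb1 G (EuclideanSpace ℝ G) (rep G) hm (leafs k c) (leafs_letter k c)
        (EuclideanSpace.single (1 : G) (1 : ℝ))
      rw [hn, mul_one] at h1
      obtain ⟨l, hl, hl'⟩ := mch_eq (ρ := rep G) Γ (P := Letter (α / 2)) k
        (fun j hj c => (hprop j hj c).2) c (EuclideanSpace.single g (1 : ℝ))
      have h2 := hb2 G (EuclideanSpace ℝ G) (rep G) hm l hl (EuclideanSpace.single g (1 : ℝ))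
      rw [hn, mul_one, ← hl'] at h2
      have h3 : ssum (rep G) (leafs k c) (EuclideanSpace.single (1 : G) (1 : ℝ)) *
          mch (rep G) Γ k c (EuclideanSpace.single g (1 : ℝ)) ≤ C1 * C2 :=
        mul_le_mul h1 h2 (mch_nonneg Γ k c _) hC1
      rw [hC0]
      have h4 := mul_le_mul_of_nonneg_left h3 (show 0 ≤ 2 * lam by positivity)
      linarith
  intro k c g
  refine (hmain k c g).trans ?_
  apply mul_le_mul_of_nonneg_right _ hlam
  nlinarith

end Helper68.INW
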