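import Mathlib

set_option autoImplicit false
set_option linter.unusedSectionVars false

/-!
Random letters acting by isometries: the losses of norm along a sequence of random letters are
summable, with a bound depending only on the order of the group and the smallest probability.
-/

namespace Helper68.INW

open scoped InnerProductSpace

variable {G : Type} [Group G] [Fintype G]
variable {H : Type} [NormedAddCommGroup H] [InnerProductSpace ℝ H]

/-- A probability distribution on `G` all of whose atoms are at least `σ`. -/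
structure Letter (σ : ℝ) (p : G → ℝ) : Prop where
  nonneg : ∀ g, 0 ≤ p g
  sum : ∑ g, p g = 1
  atom : ∀ g, p g ≠ 0 → σ ≤ p g

/-- The mean operator. -/
noncomputable def op (ρ : G →* (H ≃ₗᵢ[ℝ] H)) (p : G → ℝ) (y : H) : H := ∑ g, p g • ρ g y

/-- The loss of the square of the norm. -/
noncomputable def drop (ρ : G →* (H ≃ₗᵢ[ℝ] H)) (p : G → ℝ) (y : H) : ℝ :=
  ‖y‖ ^ 2 - ‖op ρ p y‖ ^ 2

/-- The standard deviation. -/
noncomputable def std (ρ : G →* (H ≃ₗᵢ[ℝ] H)) (p : G → ℝ) (y : H) : ℝ := Real.sqrt (drop ρ p y)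

/-- Application of the mean operators of a list of letters. -/
noncomputable def run (ρ : G →* (H ≃ₗᵢ[ℝ] H)) : List (G → ℝ) → H → H
  | [], y => y
  | p :: l, y => run ρ l (op ρ p y)

/-- The sum of the standard deviations. -/
noncomputable def ssum (ρ : G →* (H ≃ₗᵢ[ℝ] H)) : List (G → ℝ) → H → ℝ
  | [], _ => 0
  | p :: l, y => std ρ p y + ssum ρ l (op ρ p y)

variable {ρ : G →* (H ≃ₗᵢ[ℝ] H)} {σ : ℝ} {p : G → ℝ}

lemma rho_mul (g h : G) (y : H) : ρ (g * h) y = ρ g (ρ h y) := by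
  rw [map_mul]
  rfl

lemma rho_one (y : H) : ρ 1 y = y := by
  rw [map_one]
  rfl

lemma op_add (y z : H) : op ρ p (y + z) = op ρ p y + op ρ p z := by
  unfold op
  simp only [map_add, smul_add, Finset.sum_add_distrib]

lemma run_add (l : List (G → ℝ)) : ∀ y z : H, run ρ l (y + z) = run ρ l y + run ρ l z := by
  induction l with
  | nil => intro y z; rfl
  | cons p l ih => intro y z; simp only [run, op_add, ih]

lemma run_append (l l' : List (G → ℝ)) : ∀ y : H, run ρ (l ++ l') y = run ρ l' (run ρ l y) := by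
  induction l with
  | nil => intro y; rfl
  | cons p l ih => intro y; simp only [List.cons_append, run, ih]

lemma ssum_append (l l' : List (G → ℝ)) : ∀ y : H,
    ssum ρ (l ++ l') y = ssum ρ l y + ssum ρ l' (run ρ l y) := by
  induction l with
  | nil => intro y; simp [ssum, run]
  | cons p l ih => intro y; simp only [List.cons_append, run, ssum, ih]; ring

/-- The loss as a mean square difference. -/
lemma drop_eq (hp : Letter σ p) (y : H) :
    drop ρ p y = (∑ g, ∑ h, p g * p h * ‖ρ g y - ρ h y‖ ^ 2) / 2 := by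
  have h1 : ∀ g h : G, p g * p h * ‖ρ g y - ρ h y‖ ^ 2 =
      2 * (p g * p h) * ‖y‖ ^ 2 - 2 * (p g * p h * ⟪ρ g y, ρ h y⟫_ℝ) := by
    intro g h
    rw [norm_sub_sq_real, LinearIsometryEquiv.norm_map, LinearIsometryEquiv.norm_map]
    ring
  have h2 : ‖op ρ p y‖ ^ 2 = ∑ g, ∑ h, p g * p h * ⟪ρ g y, ρ h y⟫_ℝ := by
    unfold op
    rw [← real_inner_self_eq_norm_sq, sum_inner]
    refine Finset.sum_congr rfl fun g _ => ?_
    rw [inner_sum]
    refine Finset.sum_congr rfl fun h _ => ?_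
    rw [real_inner_smul_left, real_inner_smul_right]
    ring
  have h3 : ∑ g, ∑ h, 2 * (p g * p h) * ‖y‖ ^ 2 = 2 * ‖y‖ ^ 2 := by
    have : ∑ g, ∑ h, 2 * (p g * p h) * ‖y‖ ^ 2 = 2 * ‖y‖ ^ 2 * ((∑ g, p g) * ∑ h, p h) := by
      rw [Finset.sum_mul_sum, Finset.mul_sum]
      refine Finset.sum_congr rfl fun g _ => ?_
      rw [Finset.mul_sum]
      refine Finset.sum_congr rfl fun h _ => ?_
      ring
    rw [this, hp.sum]
    ring
  simp only [h1, Finset.sum_sub_distrib]
  rw [h3]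
  unfold drop
  rw [h2]
  simp only [← Finset.mul_sum]
  ring

lemma drop_nonneg (hp : Letter σ p) (y : H) : 0 ≤ drop ρ p y := by
  rw [drop_eq hp]
  have : 0 ≤ ∑ g, ∑ h, p g * p h * ‖ρ g y - ρ h y‖ ^ 2 :=
    Finset.sum_nonneg fun g _ => Finset.sum_nonneg fun h _ =>
      mul_nonneg (mul_nonneg (hp.nonneg g) (hp.nonneg h)) (sq_nonneg _)
  linarith

lemma norm_op_le (hp : Letter σ p) (y : H) : ‖op ρ p y‖ ≤ ‖y‖ := by
  have h := drop_nonneg (ρ := ρ) hp y
  unfold drop at h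
  exact (sq_le_sq₀ (norm_nonneg _) (norm_nonneg _)).1 (by linarith)

lemma norm_run_le {l : List (G → ℝ)} (hl : ∀ p ∈ l, Letter σ p) : ∀ y : H,
    ‖run ρ l y‖ ≤ ‖y‖ := by
  induction l with
  | nil => intro y; exact le_rfl
  | cons p l ih =>
    intro y
    exact (ih (fun q hq => hl q (List.mem_cons_of_mem _ hq)) _).trans
      (norm_op_le (hl p List.mem_cons_self) y)

lemma std_nonneg (y : H) : 0 ≤ std ρ p y := Real.sqrt_nonneg _

lemma std_sq (hp : Letter σ p) (y : H) : std ρ p y ^ 2 = drop ρ p y :=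
  Real.sq_sqrt (drop_nonneg hp y)

lemma std_le (y : H) : std ρ p y ≤ ‖y‖ := by
  unfold std drop
  apply Real.sqrt_le_iff.2
  refine ⟨norm_nonneg _, ?_⟩
  have := sq_nonneg ‖op ρ p y‖
  linarith

lemma ssum_nonneg (l : List (G → ℝ)) : ∀ y : H, 0 ≤ ssum ρ l y := by
  induction l with
  | nil => intro y; exact le_rfl
  | cons p l ih => intro y; exact add_nonneg (std_nonneg y) (ih _)

/-- The total loss is at most the square of the sum of the standard deviations. -/
lemma loss_le {l : List (G → ℝ)} (hl : ∀ p ∈ l, Letter σ p) : ∀ y : H,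
    ‖y‖ ^ 2 - ‖run ρ l y‖ ^ 2 ≤ ssum ρ l y ^ 2 := by
  induction l with
  | nil => intro y; simp [run, ssum]
  | cons p l ih =>
    intro y
    have h1 := ih (fun q hq => hl q (List.mem_cons_of_mem _ hq)) (op ρ p y)
    have h2 := std_sq (ρ := ρ) (hl p List.mem_cons_self) y
    unfold drop at h2
    have h3 := std_nonneg (ρ := ρ) (p := p) y
    have h4 := ssum_nonneg (ρ := ρ) l (op ρ p y)
    simp only [run, ssum]
    nlinarith

/-- Letters in the support move the vector by little if the loss is small. -/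
lemma disp_le (hp : Letter σ p) (hσ : 0 < σ) {g h : G} (hg : p g ≠ 0) (hh : p h ≠ 0) (y : H) :
    ‖ρ g y - ρ h y‖ ≤ 2 / σ * std ρ p y := by
  have h1 := drop_eq (ρ := ρ) hp y
  have h2 : p g * p h * ‖ρ g y - ρ h y‖ ^ 2 ≤ ∑ g, ∑ h, p g * p h * ‖ρ g y - ρ h y‖ ^ 2 := by
    have hnn : ∀ g h : G, 0 ≤ p g * p h * ‖ρ g y - ρ h y‖ ^ 2 := fun g h =>
      mul_nonneg (mul_nonneg (hp.nonneg g) (hp.nonneg h)) (sq_nonneg _)
    refine le_trans ?_ (Finset.single_le_sum (f := fun g => ∑ h, p g * p h * ‖ρ g y - ρ h y‖ ^ 2)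
      (fun g _ => Finset.sum_nonneg fun h _ => hnn g h) (Finset.mem_univ g))
    exact Finset.single_le_sum (f := fun h => p g * p h * ‖ρ g y - ρ h y‖ ^ 2)
      (fun h _ => hnn g h) (Finset.mem_univ h)
  have h3 : σ * σ ≤ p g * p h := mul_le_mul (hp.atom g hg) (hp.atom h hh) hσ.le (hp.nonneg g)
  have h4 := std_sq (ρ := ρ) hp y
  have h5 : σ * σ * ‖ρ g y - ρ h y‖ ^ 2 ≤ p g * p h * ‖ρ g y - ρ h y‖ ^ 2 :=
    mul_le_mul_of_nonneg_right h3 (sq_nonneg _)
  have h6 : (σ * ‖ρ g y - ρ h y‖) ^ 2 ≤ (2 * std ρ p y) ^ 2 := by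
    have : (2 * std ρ p y) ^ 2 = 4 * drop ρ p y := by rw [mul_pow, h4]; norm_num
    rw [this, h1]
    have hpos : 0 ≤ ∑ g, ∑ h, p g * p h * ‖ρ g y - ρ h y‖ ^ 2 := by
      have := drop_nonneg (ρ := ρ) hp y
      rw [h1] at this
      linarith
    nlinarith
  have h7 : σ * ‖ρ g y - ρ h y‖ ≤ 2 * std ρ p y :=
    (sq_le_sq₀ (by positivity) (mul_nonneg (by norm_num) (std_nonneg y))).1 h6
  rw [div_mul_eq_mul_div, le_div_iff₀ hσ]
  linarith

lemma op_fixed (hp : ∑ g, p g = 1) {f : H} (hf : ∀ g, p g ≠ 0 → ρ g f = f) : op ρ p f = f := by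
  unfold op
  have : ∀ g, p g • ρ g f = p g • f := by
    intro g
    by_cases h : p g = 0
    · rw [h, zero_smul, zero_smul]
    · rw [hf g h]
  simp only [this, ← Finset.sum_smul, hp, one_smul]

lemma drop_add_fixed (hp : Letter σ p) {f : H} (hf : ∀ g, p g ≠ 0 → ρ g f = f) (z : H) :
    drop ρ p (z + f) = drop ρ p z := by
  rw [drop_eq hp, drop_eq hp]
  congr 1
  refine Finset.sum_congr rfl fun g _ => Finset.sum_congr rfl fun h _ => ?_
  by_cases hg : p g = 0
  · rw [hg]; ring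
  by_cases hh : p h = 0
  · rw [hh]; ring
  rw [map_add, map_add, hf g hg, hf h hh, add_sub_add_right_eq_sub]

/-- The subgroup generated by the supports. -/
def gen (l : List (G → ℝ)) : Subgroup G := Subgroup.closure {g | ∃ p ∈ l, p g ≠ 0}

lemma mem_gen {l : List (G → ℝ)} (hp : p ∈ l) {g : G} (hg : p g ≠ 0) : g ∈ gen l :=
  Subgroup.subset_closure ⟨p, hp, hg⟩

lemma gen_mono {l l' : List (G → ℝ)} (h : ∀ p ∈ l, p ∈ l') : gen l ≤ gen l' :=
  Subgroup.closure_mono fun _ ⟨p, hp, hg⟩ => ⟨p, h p hp, hg⟩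

lemma gen_nil : gen ([] : List (G → ℝ)) = ⊥ := by
  unfold gen
  rw [eq_bot_iff, Subgroup.closure_le]
  rintro g ⟨p, hp, -⟩
  simp at hp

lemma run_fixed {l : List (G → ℝ)} (hl : ∀ p ∈ l, Letter σ p) {f : H}
    (hf : ∀ g ∈ gen l, ρ g f = f) (z : H) :
    run ρ l (z + f) = run ρ l z + f ∧ ssum ρ l (z + f) = ssum ρ l z := by
  induction l generalizing z with
  | nil => exact ⟨rfl, rfl⟩
  | cons p l ih =>
    have hp := hl p List.mem_cons_self
    have hpf : ∀ g, p g ≠ 0 → ρ g f = f := fun g hg => hf g (mem_gen List.mem_cons_self hg)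
    have ih' := ih (fun q hq => hl q (List.mem_cons_of_mem _ hq))
      (fun g hg => hf g (gen_mono (fun q hq => List.mem_cons_of_mem _ hq) hg))
    simp only [run, ssum]
    rw [op_add, op_fixed hp.sum hpf]
    refine ⟨(ih' _).1, ?_⟩
    rw [(ih' _).2]
    unfold std
    rw [drop_add_fixed hp hpf]

/-- The uniform distribution on a subgroup. -/
noncomputable def uK (K : Subgroup G) : G → ℝ := by
  classical
  exact fun g => if g ∈ K then (Nat.card K : ℝ)⁻¹ else 0

lemma uK_of_mem {K : Subgroup G} {g : G} (h : g ∈ K) : uK K g = (Nat.card K : ℝ)⁻¹ := by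
  unfold uK
  exact if_pos h

lemma uK_of_notMem {K : Subgroup G} {g : G} (h : g ∉ K) : uK K g = 0 := by
  unfold uK
  exact if_neg h

lemma uK_mul {K : Subgroup G} {k : G} (hk : k ∈ K) (g : G) : uK K (g * k) = uK K g := by
  by_cases hg : g ∈ K
  · rw [uK_of_mem hg, uK_of_mem (K.mul_mem hg hk)]
  · rw [uK_of_notMem hg, uK_of_notMem fun h => hg ((K.mul_mem_cancel_right hk).1 h)]

lemma uK_mul' {K : Subgroup G} {k : G} (hk : k ∈ K) (g : G) : uK K (k * g) = uK K g := by
  by_cases hg : g ∈ K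
  · rw [uK_of_mem hg, uK_of_mem (K.mul_mem hk hg)]
  · rw [uK_of_notMem hg, uK_of_notMem fun h => hg ((K.mul_mem_cancel_left hk).1 h)]

lemma uK_letter (K : Subgroup G) : Letter ((Nat.card K : ℝ)⁻¹) (uK K) := by
  classical
  refine ⟨fun g => ?_, ?_, fun g hg => ?_⟩
  · by_cases hg : g ∈ K
    · rw [uK_of_mem hg]; positivity
    · rw [uK_of_notMem hg]
  · have h1 : ∑ g, uK K g = ∑ g : G, if g ∈ K then (Nat.card K : ℝ)⁻¹ else 0 := by
      refine Finset.sum_congr rfl fun g _ => ?_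
      by_cases hg : g ∈ K
      · rw [uK_of_mem hg, if_pos hg]
      · rw [uK_of_notMem hg, if_neg hg]
    rw [h1, ← Finset.sum_filter, Finset.sum_const, nsmul_eq_mul]
    have h2 : (Finset.univ.filter fun g : G => g ∈ K).card = Nat.card K := by
      rw [Nat.card_eq_fintype_card, Fintype.card_subtype]
    rw [h2]
    have : (Nat.card K : ℝ) ≠ 0 := by
      exact_mod_cast Nat.card_pos.ne'
    exact mul_inv_cancel₀ this
  · by_cases h : g ∈ K
    · rw [uK_of_mem h]
    · exact absurd (uK_of_notMem h) hg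

/-- The projection on the fixed vectors of `K`. -/
noncomputable def pr (ρ : G →* (H ≃ₗᵢ[ℝ] H)) (K : Subgroup G) (y : H) : H := op ρ (uK K) y

lemma rho_pr {K : Subgroup G} {k : G} (hk : k ∈ K) (y : H) : ρ k (pr ρ K y) = pr ρ K y := by
  unfold pr op
  rw [map_sum]
  rw [← Equiv.sum_comp (Equiv.mulLeft k) fun g => uK K g • ρ g y]
  refine Finset.sum_congr rfl fun g _ => ?_
  simp only [Equiv.coe_mulLeft]
  rw [uK_mul' hk, map_smul, rho_mul]

lemma pr_rho {K : Subgroup G} {k : G} (hk : k ∈ K) (y : H) : pr ρ K (ρ k y) = pr ρ K y := by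
  unfold pr op
  rw [← Equiv.sum_comp (Equiv.mulRight k) fun g => uK K g • ρ g y]
  refine Finset.sum_congr rfl fun g _ => ?_
  simp only [Equiv.coe_mulRight]
  rw [uK_mul hk, rho_mul]

lemma op_smul (a : ℝ) (y : H) : op ρ p (a • y) = a • op ρ p y := by
  unfold op
  rw [Finset.smul_sum]
  refine Finset.sum_congr rfl fun g _ => ?_
  rw [map_smul, smul_comm]

lemma op_zero : op ρ p (0 : H) = 0 := by
  unfold op
  simp

lemma op_sum {α : Type} (s : Finset α) (z : α → H) : op ρ p (∑ i ∈ s, z i) = ∑ i ∈ s, op ρ p (z i) := by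
  classical
  induction s using Finset.induction_on with
  | empty => simp [op_zero]
  | insert a s ha ih => rw [Finset.sum_insert ha, Finset.sum_insert ha, op_add, ih]

lemma pr_op {K : Subgroup G} (hp : ∑ g, p g = 1) (hK : ∀ g, p g ≠ 0 → g ∈ K) (y : H) :
    pr ρ K (op ρ p y) = pr ρ K y := by
  have h1 : pr ρ K (op ρ p y) = ∑ g, p g • pr ρ K (ρ g y) := by
    show op ρ (uK K) (∑ g, p g • ρ g y) = ∑ g, p g • op ρ (uK K) (ρ g y)
    rw [op_sum]
    refine Finset.sum_congr rfl fun g _ => ?_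
    rw [op_smul]
  rw [h1]
  have : ∀ g, p g • pr ρ K (ρ g y) = p g • pr ρ K y := by
    intro g
    by_cases h : p g = 0
    · rw [h, zero_smul, zero_smul]
    · rw [pr_rho (hK g h)]
  simp only [this, ← Finset.sum_smul, hp, one_smul]

lemma pr_run {K : Subgroup G} {l : List (G → ℝ)} (hl : ∀ p ∈ l, Letter σ p) (hK : gen l ≤ K) :
    ∀ y : H, pr ρ K (run ρ l y) = pr ρ K y := by
  induction l with
  | nil => intro y; rfl
  | cons p l ih =>
    intro y
    simp only [run]
    rw [ih (fun q hq => hl q (List.mem_cons_of_mem _ hq))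
      ((gen_mono fun q hq => List.mem_cons_of_mem _ hq).trans hK)]
    exact pr_op (hl p List.mem_cons_self).sum (fun g hg => hK (mem_gen List.mem_cons_self hg)) y

lemma pr_pr (K : Subgroup G) (y : H) : pr ρ K (pr ρ K y) = pr ρ K y :=
  op_fixed (uK_letter K).sum fun g hg => rho_pr (by
    by_contra h
    exact hg (uK_of_notMem h)) y

lemma pr_sub (K : Subgroup G) (y : H) : pr ρ K (y - pr ρ K y) = 0 := by
  have h : pr ρ K (y - pr ρ K y + pr ρ K y) = pr ρ K (y - pr ρ K y) + pr ρ K (pr ρ K y) :=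
    op_add _ _
  rw [sub_add_cancel, pr_pr] at h
  exact (add_eq_right.1 h.symm)

lemma inner_zero_fixed {K : Subgroup G} {z f : H} (hz : pr ρ K z = 0)
    (hf : ∀ k ∈ K, ρ k f = f) : ⟪z, f⟫_ℝ = 0 := by
  have h1 : ⟪pr ρ K z, f⟫_ℝ = ⟪z, f⟫_ℝ := by
    unfold pr op
    rw [sum_inner]
    have : ∀ g, ⟪uK K g • ρ g z, f⟫_ℝ = uK K g * ⟪z, f⟫_ℝ := by
      intro g
      by_cases hg : g ∈ K
      · rw [real_inner_smul_left]
        congr 1
        conv_lhs => rw [← hf g hg]
        exact LinearIsometryEquiv.inner_map_map _ _ _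
      · rw [uK_of_notMem hg, zero_smul, inner_zero_left, zero_mul]
    simp only [this, ← Finset.sum_mul, (uK_letter K).sum, one_mul]
  rw [← h1, hz, inner_zero_left]

lemma norm_sq_add {K : Subgroup G} {z f : H} (hz : pr ρ K z = 0)
    (hf : ∀ k ∈ K, ρ k f = f) : ‖z + f‖ ^ 2 = ‖z‖ ^ 2 + ‖f‖ ^ 2 := by
  rw [norm_add_sq_real, inner_zero_fixed hz hf]
  ring

lemma norm_le_of_disp {K : Subgroup G} {y : H} (hy : pr ρ K y = 0) {B : ℝ}
    (h : ∀ k ∈ K, ‖ρ k y - y‖ ≤ B) : ‖y‖ ≤ B := by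
  have h1 : pr ρ K y - y = ∑ g, uK K g • (ρ g y - y) := by
    unfold pr op
    simp only [smul_sub, Finset.sum_sub_distrib, ← Finset.sum_smul, (uK_letter K).sum, one_smul]
  rw [hy, zero_sub] at h1
  rw [← norm_neg, h1]
  refine (norm_sum_le _ _).trans ?_
  calc ∑ g, ‖uK K g • (ρ g y - y)‖ ≤ ∑ g, uK K g * B := by
        refine Finset.sum_le_sum fun g _ => ?_
        rw [norm_smul, Real.norm_of_nonneg ((uK_letter K).nonneg g)]
        by_cases hg : g ∈ K
        · exact mul_le_mul_of_nonneg_left (h g hg) ((uK_letter K).nonneg g)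
        · rw [uK_of_notMem hg, zero_mul, zero_mul]
    _ = B := by rw [← Finset.sum_mul, (uK_letter K).sum, one_mul]

/-- Short words. -/
lemma exists_short {T : Set G} {g : G} (hg : g ∈ Subgroup.closure T) :
    ∃ l : List G, (∀ x ∈ l, x ∈ T) ∧ l.prod = g ∧
      l.length ≤ Nat.card (Subgroup.closure T) := by
  classical
  have hex : ∃ n, ∃ l : List G, (∀ x ∈ l, x ∈ T) ∧ l.prod = g ∧ l.length = n := by
    have hg' : g ∈ Submonoid.closure T := by
      rw [← Subgroup.closure_toSubmonoid_of_finite]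
      exact hg
    obtain ⟨l, h1, h2⟩ := Submonoid.exists_list_of_mem_closure hg'
    exact ⟨_, l, h1, h2, rfl⟩
  obtain ⟨l, h1, h2, h3⟩ := Nat.find_spec hex
  refine ⟨l, h1, h2, ?_⟩
  have hmem : ∀ i, (l.take i).prod ∈ Subgroup.closure T := by
    intro i
    apply Subgroup.list_prod_mem
    intro x hx
    exact Subgroup.subset_closure (h1 x (List.mem_of_mem_take hx))
  have hinj : Function.Injective fun i : Fin l.length =>
      (⟨(l.take i.1).prod, hmem i.1⟩ : Subgroup.closure T) := by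
    intro i j hij
    have hij' : (l.take i.1).prod = (l.take j.1).prod := congrArg Subtype.val hij
    by_contra hne
    have key : ∀ i j : ℕ, i < j → j ≤ l.length → (l.take i).prod = (l.take j).prod → False := by
      intro i j hlt hj h
      have h4 : (l.take i ++ l.drop j).prod = g := by
        rw [List.prod_append, h, ← List.prod_append, List.take_append_drop, h2]
      have h5 : (l.take i ++ l.drop j).length < l.length := by
        rw [List.length_append, List.length_take, List.length_drop]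
        omega
      refine Nat.find_min hex (m := (l.take i ++ l.drop j).length) (by rw [← h3]; exact h5)
        ⟨_, ?_, h4, rfl⟩
      intro x hx
      rcases List.mem_append.1 hx with h | h
      · exact h1 x (List.mem_of_mem_take h)
      · exact h1 x (List.mem_of_mem_drop h)
    rcases lt_or_gt_of_ne (fun h => hne (Fin.ext h) : i.1 ≠ j.1) with h | h
    · exact key i.1 j.1 h (by omega) hij'
    · exact key j.1 i.1 h (by omega) hij'.symm
  have := Nat.card_le_card_of_injective _ hinj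
  rwa [Nat.card_fin] at this

lemma disp_word {B : ℝ} {y : H} {T : Set G} (hT : ∀ g ∈ T, ‖ρ g y - y‖ ≤ B) (l : List G)
    (hl : ∀ x ∈ l, x ∈ T) : ‖ρ l.prod y - y‖ ≤ l.length * B := by
  induction l with
  | nil => simp
  | cons g l ih =>
    have h1 := ih fun x hx => hl x (List.mem_cons_of_mem _ hx)
    have h2 : ‖ρ g y - y‖ ≤ B := hT g (hl g List.mem_cons_self)
    rw [List.prod_cons, rho_mul, List.length_cons]
    have h3 : ρ g (ρ l.prod y) - y = ρ g (ρ l.prod y - y) + (ρ g y - y) := by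
      rw [map_sub]
      abel
    rw [h3]
    refine (norm_add_le _ _).trans ?_
    rw [LinearIsometryEquiv.norm_map]
    push_cast
    linarith

lemma disp_closure {B : ℝ} (hB : 0 ≤ B) {y : H} {T : Set G} (hT : ∀ g ∈ T, ‖ρ g y - y‖ ≤ B)
    {g : G} (hg : g ∈ Subgroup.closure T) {m : ℕ} (hm : Nat.card (Subgroup.closure T) ≤ m) :
    ‖ρ g y - y‖ ≤ m * B := by
  obtain ⟨l, h1, rfl, h3⟩ := exists_short hg
  refine (disp_word hT l h1).trans ?_
  have : (l.length : ℝ) ≤ m := by exact_mod_cast h3.trans hm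
  exact mul_le_mul_of_nonneg_right this hB

/-- The first moment when the supports generate the subgroup. -/
lemma exists_split {K : Subgroup G} (hK : K ≠ ⊥) (l : List (G → ℝ)) (h : gen l = K) :
    ∃ l1 p l2, l = l1 ++ p :: l2 ∧ gen l1 ≠ K ∧ gen (l1 ++ [p]) = K := by
  induction l using List.reverseRecOn with
  | nil => exact absurd (h.symm.trans gen_nil) hK
  | append_singleton l p ih =>
    by_cases h1 : gen l = K
    · obtain ⟨l1, q, l2, h2, h3, h4⟩ := ih h1
      exact ⟨l1, q, l2 ++ [p], by rw [h2]; simp, h3, h4⟩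
    · exact ⟨l, p, [], rfl, h1, h⟩

lemma ssum_zero (l : List (G → ℝ)) : ssum ρ l (0 : H) = 0 := by
  induction l with
  | nil => rfl
  | cons p l ih =>
    have h : std ρ p (0 : H) = 0 := by
      have h1 := std_nonneg (ρ := ρ) (p := p) (0 : H)
      have h2 := std_le (ρ := ρ) (p := p) (0 : H)
      rw [norm_zero] at h2
      linarith
    simp only [ssum, op_zero, ih, h, add_zero]

lemma pr_bot (y : H) : pr ρ ⊥ y = y := by
  have h := pr_rho (ρ := ρ) (K := ⊥) (k := 1) (Subgroup.mem_bot.2 rfl) y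
  refine op_fixed (uK_letter ⊥).sum fun g hg => ?_
  have : g ∈ (⊥ : Subgroup G) := by
    by_contra h
    exact hg (uK_of_notMem h)
  rw [Subgroup.mem_bot.1 this, rho_one]

/-- A letter that contains the neutral element in its support. -/
def NLetter (σ : ℝ) (p : G → ℝ) : Prop := Letter σ p ∧ p 1 ≠ 0

/-- The contraction and the bound for the sum of the standard deviations. -/
def Bound (σ θ C : ℝ) (m : ℕ) : Prop :=
  ∀ (G : Type) [Group G] [Fintype G] (H : Type) [NormedAddCommGroup H] [InnerProductSpace ℝ H]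
    (ρ : G →* (H ≃ₗᵢ[ℝ] H)) (K : Subgroup G), Nat.card K ≤ m → ∀ l : List (G → ℝ),
    (∀ p ∈ l, NLetter σ p) → ∀ y, pr ρ K y = 0 →
      (gen l = K → ‖run ρ l y‖ ≤ θ * ‖y‖) ∧ (gen l ≤ K → ssum ρ l y ≤ C * ‖y‖)

lemma card_lt {K K' : Subgroup G} (h : K' ≤ K) (h' : K' ≠ K) {m : ℕ} (hm : Nat.card K ≤ m + 1) :
    Nat.card K' ≤ m := by
  have h1 : Nat.card K' ≠ Nat.card K := fun h2 => h' (Subgroup.eq_of_le_of_card_ge h h2.ge)
  have h2 : Nat.card K' ≤ Nat.card K := Subgroup.card_le_of_le h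
  omega

/-- The contraction step. -/
lemma contract {σ θ C : ℝ} (hσ : 0 < σ) (hθ0 : 0 ≤ θ) (hθ : θ < 1) {m : ℕ}
    (hB : Bound σ θ C m) {K : Subgroup G} (hK : K ≠ ⊥) (hm : Nat.card K ≤ m + 1)
    {l1 : List (G → ℝ)} {p : G → ℝ} (hl : ∀ q ∈ l1, NLetter σ q) (hp : NLetter σ p)
    (h1 : gen l1 ≠ K) (h2 : gen (l1 ++ [p]) = K) {y : H} (hy : pr ρ K y = 0) :
    ‖y‖ ^ 2 ≤ ((m + 1 : ℝ) * (2 / σ + 4 / Real.sqrt (1 - θ ^ 2))) ^ 2 *
      (‖y‖ ^ 2 - ‖op ρ p (run ρ l1 y)‖ ^ 2) := by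
  have hle : gen l1 ≤ K := by
    rw [← h2]
    exact gen_mono fun q hq => List.mem_append_left _ hq
  have hl' : ∀ q ∈ l1, Letter σ q := fun q hq => (hl q hq).1
  set K' := gen l1 with hK'
  set f := pr ρ K' y with hf
  set z := y - f with hz
  have hyz : y = z + f := by rw [hz, sub_add_cancel]
  have hfix : ∀ k ∈ K', ρ k f = f := fun k hk => rho_pr hk y
  have hz0 : pr ρ K' z = 0 := pr_sub K' y
  have hIH := (hB G H ρ K' (card_lt hle h1 hm) l1 hl z hz0).1 rfl
  set z1 := run ρ l1 z with hz1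
  have hrun : run ρ l1 y = z1 + f := by
    conv_lhs => rw [hyz]
    exact (run_fixed hl' hfix z).1
  have hz10 : pr ρ K' z1 = 0 := by rw [hz1, pr_run hl' le_rfl, hz0]
  have hn1 : ‖y‖ ^ 2 = ‖z‖ ^ 2 + ‖f‖ ^ 2 := by
    conv_lhs => rw [hyz]
    exact norm_sq_add hz0 hfix
  have hn2 : ‖run ρ l1 y‖ ^ 2 = ‖z1‖ ^ 2 + ‖f‖ ^ 2 := by
    rw [hrun]
    exact norm_sq_add hz10 hfix
  set y1 := run ρ l1 y with hy1
  set s := std ρ p y1 with hs
  have hs0 : 0 ≤ s := std_nonneg y1
  have hs2 : s ^ 2 = ‖y1‖ ^ 2 - ‖op ρ p y1‖ ^ 2 := std_sq hp.1 y1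
  have hz1le : ‖z1‖ ≤ ‖z‖ := norm_run_le hl' z
  have hdiff : ‖y - y1‖ ≤ 2 * ‖z‖ := by
    have : y - y1 = z - z1 := by
      rw [hrun]
      conv_lhs => rw [hyz]
      abel
    rw [this]
    refine (norm_sub_le _ _).trans ?_
    linarith
  -- displacement of the generators
  set B := 2 / σ * s + 4 * ‖z‖ with hBdef
  have hB0 : 0 ≤ B := by positivity
  have hgen : ∀ g ∈ {g : G | ∃ q ∈ l1 ++ [p], q g ≠ 0}, ‖ρ g y - y‖ ≤ B := by
    rintro g ⟨q, hq, hg⟩
    rcases List.mem_append.1 hq with hq | hq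
    · have hgK : g ∈ K' := mem_gen hq hg
      have h3 : ρ g y - y = ρ g z - z := by
        conv_lhs => rw [hyz]
        rw [map_add, hfix g hgK]
        abel
      rw [h3]
      refine (norm_sub_le _ _).trans ?_
      rw [LinearIsometryEquiv.norm_map]
      have : 0 ≤ 2 / σ * s := by positivity
      have := norm_nonneg z
      linarith
    · rw [List.mem_singleton] at hq
      subst hq
      have h3 := disp_le (ρ := ρ) hp.1 hσ hg hp.2 y1
      rw [rho_one] at h3
      have h4 : ρ g y - y = ρ g (y - y1) + (ρ g y1 - y1) - (y - y1) := by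
        rw [map_sub]
        abel
      rw [h4]
      refine (norm_sub_le _ _).trans ?_
      refine (add_le_add_left (norm_add_le _ _) _).trans ?_
      rw [LinearIsometryEquiv.norm_map]
      linarith
  have hdispK : ∀ k ∈ K, ‖ρ k y - y‖ ≤ ((m + 1 : ℕ) : ℝ) * B := by
    intro k hk
    rw [← h2] at hk hm
    exact disp_closure hB0 hgen hk hm
  have hyB := norm_le_of_disp hy hdispK
  -- the loss
  have hr : 0 < 1 - θ ^ 2 := by nlinarith
  set r := Real.sqrt (1 - θ ^ 2) with hrdef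
  have hr0 : 0 < r := Real.sqrt_pos.2 hr
  have hr2 : r ^ 2 = 1 - θ ^ 2 := Real.sq_sqrt hr.le
  set D := ‖y‖ ^ 2 - ‖op ρ p y1‖ ^ 2 with hD
  have hD1 : (r * ‖z‖) ^ 2 + s ^ 2 ≤ D := by
    have h5 : ‖z1‖ ^ 2 ≤ (θ * ‖z‖) ^ 2 := pow_le_pow_left₀ (norm_nonneg _) hIH 2
    rw [mul_pow, hr2, hs2, hD, hn1, hn2]
    nlinarith
  have hD0 : 0 ≤ D := le_trans (by positivity) hD1
  have hzD : ‖z‖ ≤ Real.sqrt D / r := by
    rw [le_div_iff₀ hr0, mul_comm]
    apply Real.le_sqrt_of_sq_le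
    nlinarith [sq_nonneg s]
  have hsD : s ≤ Real.sqrt D := by
    apply Real.le_sqrt_of_sq_le
    nlinarith [sq_nonneg (r * ‖z‖)]
  have hBD : B ≤ (2 / σ + 4 / r) * Real.sqrt D := by
    have h6 : 2 / σ * s ≤ 2 / σ * Real.sqrt D := mul_le_mul_of_nonneg_left hsD (by positivity)
    have h7 : 4 * ‖z‖ ≤ 4 * (Real.sqrt D / r) := by linarith
    have h8 : (2 / σ + 4 / r) * Real.sqrt D = 2 / σ * Real.sqrt D + 4 * (Real.sqrt D / r) := by
      ring
    rw [h8]
    linarith
  have hfin : ‖y‖ ≤ ((m + 1 : ℝ) * (2 / σ + 4 / r)) * Real.sqrt D := by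
    push_cast at hyB
    refine hyB.trans ?_
    rw [mul_assoc]
    exact mul_le_mul_of_nonneg_left hBD (by positivity)
  calc ‖y‖ ^ 2 ≤ (((m + 1 : ℝ) * (2 / σ + 4 / r)) * Real.sqrt D) ^ 2 :=
        pow_le_pow_left₀ (norm_nonneg _) hfin 2
    _ = _ := by rw [mul_pow, Real.sq_sqrt hD0]

theorem bound_succ {σ θ C : ℝ} (hσ : 0 < σ) (hθ0 : 0 ≤ θ) (hθ : θ < 1) (hC : 0 ≤ C) {m : ℕ}
    (hB : Bound σ θ C m) : ∃ θ' C' : ℝ, 0 ≤ θ' ∧ θ' < 1 ∧ 0 ≤ C' ∧ Bound σ θ' C' (m + 1) := by
  set κ := (m + 1 : ℝ) * (2 / σ + 4 / Real.sqrt (1 - θ ^ 2)) with hκ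
  have hr : 0 < Real.sqrt (1 - θ ^ 2) := Real.sqrt_pos.2 (by nlinarith)
  have hr1 : Real.sqrt (1 - θ ^ 2) ≤ 1 := by
    apply Real.sqrt_le_one.2
    nlinarith [sq_nonneg θ]
  have hκ1 : 1 < κ := by
    have h1 : 4 ≤ 4 / Real.sqrt (1 - θ ^ 2) := by
      rw [le_div_iff₀ hr]
      linarith
    have h2 : 0 < 2 / σ := by positivity
    have h3 : (1 : ℝ) ≤ m + 1 := by
      have : (0 : ℝ) ≤ m := Nat.cast_nonneg m
      linarith
    nlinarith
  set θ' := Real.sqrt (1 - 1 / κ ^ 2) with hθ'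
  have hκ2 : 1 < κ ^ 2 := by nlinarith
  have hθ'1 : θ' < 1 := by
    rw [hθ', Real.sqrt_lt' one_pos]
    have : 0 < 1 / κ ^ 2 := by positivity
    linarith
  have hθ'0 : 0 ≤ θ' := Real.sqrt_nonneg _
  have hθ'2 : θ' ^ 2 = 1 - 1 / κ ^ 2 := by
    apply Real.sq_sqrt
    have : 1 / κ ^ 2 ≤ 1 := by
      rw [div_le_one (by positivity)]
      exact hκ2.le
    linarith
  have h1θ : 0 < 1 - θ' := by linarith
  refine ⟨θ', (C + 1) / (1 - θ'), hθ'0, hθ'1, by positivity, ?_⟩
  -- one segment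
  have hseg : ∀ (G : Type) [Group G] [Fintype G] (H : Type) [NormedAddCommGroup H]
      [InnerProductSpace ℝ H] (ρ : G →* (H ≃ₗᵢ[ℝ] H)) (K : Subgroup G) (hK : K ≠ ⊥)
      (hm : Nat.card K ≤ m + 1) (l1 : List (G → ℝ)) (p : G → ℝ) (hl : ∀ q ∈ l1, NLetter σ q)
      (hp : NLetter σ p) (h1 : gen l1 ≠ K) (h2 : gen (l1 ++ [p]) = K) (y : H)
      (hy : pr ρ K y = 0), ‖op ρ p (run ρ l1 y)‖ ≤ θ' * ‖y‖ := by
    intro G _ _ H _ _ ρ K hK hm l1 p hl hp h1 h2 y hy
    have h := contract hσ hθ0 hθ hB hK hm hl hp h1 h2 hy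
    rw [← hκ] at h
    apply (sq_le_sq₀ (norm_nonneg _) (by positivity)).1
    rw [mul_pow, hθ'2]
    have h3 : ‖y‖ ^ 2 / κ ^ 2 ≤ ‖y‖ ^ 2 - ‖op ρ p (run ρ l1 y)‖ ^ 2 := by
      rw [div_le_iff₀ (by positivity)]
      linarith
    have h4 : (1 - 1 / κ ^ 2) * ‖y‖ ^ 2 = ‖y‖ ^ 2 - ‖y‖ ^ 2 / κ ^ 2 := by ring
    linarith
  -- short subgroups
  have hshort : ∀ (G : Type) [Group G] [Fintype G] (H : Type) [NormedAddCommGroup H]
      [InnerProductSpace ℝ H] (ρ : G →* (H ≃ₗᵢ[ℝ] H)) (l : List (G → ℝ)),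
      (∀ p ∈ l, NLetter σ p) → Nat.card (gen l) ≤ m → ∀ y : H, ssum ρ l y ≤ C * ‖y‖ := by
    intro G _ _ H _ _ ρ l hl hm y
    have hl' : ∀ q ∈ l, Letter σ q := fun q hq => (hl q hq).1
    have h1 := (hB G H ρ (gen l) hm l hl (y - pr ρ (gen l) y) (pr_sub _ y)).2 le_rfl
    have hfix : ∀ k ∈ gen l, ρ k (pr ρ (gen l) y) = pr ρ (gen l) y := fun k hk => rho_pr hk y
    have h2 := (run_fixed hl' hfix (y - pr ρ (gen l) y)).2
    rw [sub_add_cancel] at h2
    rw [h2]
    refine h1.trans (mul_le_mul_of_nonneg_left ?_ hC)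
    have h3 := norm_sq_add (ρ := ρ) (pr_sub (gen l) y) hfix
    rw [sub_add_cancel] at h3
    apply (sq_le_sq₀ (norm_nonneg _) (norm_nonneg _)).1
    rw [h3]
    have := sq_nonneg ‖pr ρ (gen l) y‖
    linarith
  intro G _ _ H _ _ ρ K hm l hl y hy
  by_cases hK : K = ⊥
  · subst hK
    rw [pr_bot] at hy
    subst hy
    rw [ssum_zero, norm_zero, mul_zero, mul_zero]
    refine ⟨fun _ => ?_, fun _ => le_rfl⟩
    have := norm_run_le (ρ := ρ) (fun q hq => (hl q hq).1) (0 : H)
    rwa [norm_zero] at this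
  constructor
  · intro hgen
    obtain ⟨l1, p, l2, rfl, h1, h2⟩ := exists_split hK l hgen
    rw [run_append]
    show ‖run ρ l2 (op ρ p (run ρ l1 y))‖ ≤ _
    refine (norm_run_le (fun q hq => (hl q (List.mem_append_right _
      (List.mem_cons_of_mem _ hq))).1) _).trans ?_
    exact hseg G H ρ K hK hm l1 p (fun q hq => hl q (List.mem_append_left _ hq))
      (hl p (List.mem_append_right _ List.mem_cons_self)) h1 h2 y hy
  · have hmain : ∀ (n : ℕ) (l : List (G → ℝ)), l.length ≤ n → (∀ p ∈ l, NLetter σ p) →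
        ∀ y : H, pr ρ K y = 0 → gen l ≤ K → ssum ρ l y ≤ (C + 1) / (1 - θ') * ‖y‖ := by
      intro n
      induction n with
      | zero =>
        intro l hn _ y _ _
        rw [List.length_eq_zero_iff.1 (Nat.le_zero.1 hn)]
        exact mul_nonneg (by positivity) (norm_nonneg _)
      | succ n ih =>
        intro l hn hl y hy hle
        have hCC : C * (1 - θ') ≤ C + 1 := by nlinarith
        by_cases hgen : gen l = K
        · obtain ⟨l1, p, l2, rfl, h1, h2⟩ := exists_split hK l hgen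
          have hle1 : gen l1 ≤ K := (gen_mono fun q hq => List.mem_append_left _ hq).trans hle
          have hl1 : ∀ q ∈ l1, NLetter σ q := fun q hq => hl q (List.mem_append_left _ hq)
          have hp := hl p (List.mem_append_right _ List.mem_cons_self)
          have hl2 : ∀ q ∈ l2, NLetter σ q := fun q hq =>
            hl q (List.mem_append_right _ (List.mem_cons_of_mem _ hq))
          have hle2 : gen l2 ≤ K := (gen_mono fun q hq => List.mem_append_right _
            (List.mem_cons_of_mem _ hq)).trans hle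
          rw [ssum_append]
          show ssum ρ l1 y + (std ρ p (run ρ l1 y) + ssum ρ l2 (op ρ p (run ρ l1 y))) ≤ _
          have h3 := hshort G H ρ l1 hl1 (card_lt hle1 h1 hm) y
          have h4 : std ρ p (run ρ l1 y) ≤ ‖y‖ :=
            (std_le _).trans (norm_run_le (fun q hq => (hl1 q hq).1) y)
          have h5 := hseg G H ρ K hK hm l1 p hl1 hp h1 h2 y hy
          have h6 : pr ρ K (op ρ p (run ρ l1 y)) = 0 := by
            have := pr_run (ρ := ρ) (l := l1 ++ [p]) (fun q hq => by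
              rcases List.mem_append.1 hq with h | h
              · exact (hl1 q h).1
              · rw [List.mem_singleton] at h
                subst h
                exact hp.1) h2.le y
            rw [run_append] at this
            rw [hy] at this
            exact this
          have h7 := ih l2 (by
            rw [List.length_append, List.length_cons] at hn
            omega) hl2 _ h6 hle2
          have h8 : (C + 1) / (1 - θ') * ‖op ρ p (run ρ l1 y)‖ ≤
              (C + 1) / (1 - θ') * (θ' * ‖y‖) := mul_le_mul_of_nonneg_left h5 (by positivity)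
          have h9 : (C + 1) / (1 - θ') * ‖y‖ = (C + 1) * ‖y‖ + (C + 1) / (1 - θ') * (θ' * ‖y‖) := by
            field_simp
            ring
          linarith
        · have h3 := hshort G H ρ l hl (card_lt hle hgen hm) y
          refine h3.trans (mul_le_mul_of_nonneg_right ?_ (norm_nonneg _))
          rw [le_div_iff₀ h1θ]
          exact hCC
    exact hmain l.length l le_rfl hl y hy

theorem exists_bound {σ : ℝ} (hσ : 0 < σ) (m : ℕ) : ∃ θ C : ℝ, 0 ≤ θ ∧ θ < 1 ∧ 0 ≤ C ∧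
    Bound σ θ C m := by
  induction m with
  | zero =>
    refine ⟨0, 0, le_rfl, one_pos, le_rfl, ?_⟩
    intro G _ _ H _ _ ρ K hm
    have : 0 < Nat.card K := Nat.card_pos
    omega
  | succ m ih =>
    obtain ⟨θ, C, h0, h1, h2, h3⟩ := ih
    exact bound_succ hσ h0 h1 h2 h3

/-- Conjugation of a letter. -/
def cj (b : G) (q : G → ℝ) : G → ℝ := fun h => q (b * h * b⁻¹)

lemma op_rho (b : G) (q : G → ℝ) (z : H) : op ρ q (ρ b z) = ρ b (op ρ (cj b q) z) := by
  unfold op
  rw [map_sum]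
  rw [← Equiv.sum_comp (MulAut.conj b).toEquiv fun g => q g • ρ g (ρ b z)]
  refine Finset.sum_congr rfl fun h _ => ?_
  simp only [MulEquiv.toEquiv_eq_coe, EquivLike.coe_coe, MulAut.conj_apply]
  rw [map_smul, ← rho_mul, ← rho_mul, inv_mul_cancel_right]
  rfl

lemma cj_letter (b : G) {q : G → ℝ} (hq : Letter σ q) : Letter σ (cj b q) := by
  refine ⟨fun g => hq.nonneg _, ?_, fun g hg => hq.atom _ hg⟩
  rw [← hq.sum, ← Equiv.sum_comp (MulAut.conj b).toEquiv q]
  rfl

lemma drop_rho (b : G) (q : G → ℝ) (z : H) : drop ρ q (ρ b z) = drop ρ (cj b q) z := by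
  unfold drop
  rw [op_rho, LinearIsometryEquiv.norm_map, LinearIsometryEquiv.norm_map]

lemma ssum_rho (b : G) (l : List (G → ℝ)) : ∀ z : H,
    ssum ρ l (ρ b z) = ssum ρ (l.map (cj b)) z := by
  induction l with
  | nil => intro z; rfl
  | cons q l ih =>
    intro z
    simp only [ssum, List.map_cons]
    rw [op_rho, ih]
    unfold std
    rw [drop_rho]

lemma exists_frame (l : List (G → ℝ)) (hl : ∀ p ∈ l, Letter σ p) :
    ∃ l' : List (G → ℝ), (∀ p ∈ l', NLetter σ p) ∧ ∀ (y : H), ssum ρ l y = ssum ρ l' y := by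
  induction l with
  | nil => exact ⟨[], by simp, fun y => rfl⟩
  | cons p l ih =>
    obtain ⟨l', h1, h2⟩ := ih fun q hq => hl q (List.mem_cons_of_mem _ hq)
    have hp := hl p List.mem_cons_self
    obtain ⟨b, hb⟩ : ∃ b, p b ≠ 0 := by
      by_contra h
      push Not at h
      have := hp.sum
      simp [h] at this
    set p' : G → ℝ := fun h => p (b * h) with hp'
    have hp'L : Letter σ p' := by
      refine ⟨fun g => hp.nonneg _, ?_, fun g hg => hp.atom _ hg⟩
      rw [← hp.sum, ← Equiv.sum_comp (Equiv.mulLeft b) p]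
      rfl
    have hop : ∀ y : H, op ρ p y = ρ b (op ρ p' y) := by
      intro y
      unfold op
      rw [map_sum, ← Equiv.sum_comp (Equiv.mulLeft b) fun g => p g • ρ g y]
      refine Finset.sum_congr rfl fun g _ => ?_
      simp only [Equiv.coe_mulLeft]
      rw [map_smul, rho_mul]
    refine ⟨p' :: l'.map (cj b), ?_, fun y => ?_⟩
    · intro q hq
      rcases List.mem_cons.1 hq with rfl | hq
      · refine ⟨hp'L, ?_⟩
        show p (b * 1) ≠ 0
        rw [mul_one]
        exact hb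
      · obtain ⟨q', hq', rfl⟩ := List.mem_map.1 hq
        refine ⟨cj_letter b (h1 q' hq').1, ?_⟩
        show q' (b * 1 * b⁻¹) ≠ 0
        rw [mul_one, mul_inv_cancel]
        exact (h1 q' hq').2
    · simp only [ssum]
      rw [h2, hop, ssum_rho]
      congr 1
      unfold std drop
      rw [hop, LinearIsometryEquiv.norm_map]

/-- The sum of the standard deviations is bounded. -/
theorem ssum_bound {σ : ℝ} (hσ : 0 < σ) (m : ℕ) : ∃ C : ℝ, 0 ≤ C ∧
    ∀ (G : Type) [Group G] [Fintype G] (H : Type) [NormedAddCommGroup H] [InnerProductSpace ℝ H]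
      (ρ : G →* (H ≃ₗᵢ[ℝ] H)), Nat.card G ≤ m → ∀ l : List (G → ℝ), (∀ p ∈ l, Letter σ p) →
        ∀ y : H, ssum ρ l y ≤ C * ‖y‖ := by
  obtain ⟨θ, C, h0, h1, h2, h3⟩ := exists_bound hσ m
  refine ⟨C, h2, fun G _ _ H _ _ ρ hm l hl y => ?_⟩
  obtain ⟨l', h4, h5⟩ := exists_frame (ρ := ρ) l hl
  rw [h5]
  have hfix : ∀ k ∈ gen l', ρ k (pr ρ ⊤ y) = pr ρ ⊤ y := fun k _ => rho_pr (Subgroup.mem_top k) y
  have h6 := (run_fixed (fun q hq => (h4 q hq).1) hfix (y - pr ρ ⊤ y)).2
  rw [sub_add_cancel] at h6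
  rw [h6]
  have h7 := (h3 G H ρ ⊤ (by rw [Subgroup.card_top]; exact hm) l' h4 (y - pr ρ ⊤ y)
    (pr_sub _ y)).2 le_top
  refine h7.trans (mul_le_mul_of_nonneg_left ?_ h2)
  have h8 := norm_sq_add (ρ := ρ) (pr_sub ⊤ y) (fun k hk => rho_pr hk y)
  rw [sub_add_cancel] at h8
  apply (sq_le_sq₀ (norm_nonneg _) (norm_nonneg _)).1
  rw [h8]
  have := sq_nonneg ‖pr ρ ⊤ y‖
  linarith

end Helper68.INW
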