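import Pool.Agent.Helper68.INW.NegProg

set_option autoImplicit false
set_option linter.unusedSectionVars false

/-!
The generator does not hit the programs over monoids whose blocks are not orthodox.
-/

namespace Helper68.INW

open Helper12.GR

section product

lemma mean_sub {V : Type} [Fintype V] (f g : V → ℝ) :
    mean (fun v => f v - g v) = mean f - mean g := by
  unfold mean
  rw [Finset.sum_sub_distrib, sub_div]

/-- Independence of the coordinates. -/
lemma mean_pi {N : ℕ} {T : Type} [Fintype T] (f : Fin N → T → ℝ) :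
    (mean fun s : Fin N → T => ∏ t, f t (s t)) = ∏ t, mean (f t) := by
  classical
  unfold mean
  rw [Finset.prod_div_distrib, Finset.prod_univ_sum, Fintype.piFinset_univ]
  congr 1
  rw [Finset.prod_const, Finset.card_univ, Fintype.card_fin, Fintype.card_fun, Fintype.card_fin]
  push_cast
  rfl

open Classical in
/-- The probability of exactly one match. -/
lemma exactly_one {N : ℕ} {T : Type} [Fintype T] [Nonempty T] (A : Fin N → T → Prop) :
    ∑ t, (mean fun s => if A t s then (1 : ℝ) else 0) *
      ∏ t' ∈ Finset.univ.erase t, (1 - mean fun s => if A t' s then (1 : ℝ) else 0) ≤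
      mean fun s : Fin N → T => if ∃! t, A t (s t) then (1 : ℝ) else 0 := by
  set a : Fin N → T → ℝ := fun t s => if A t s then (1 : ℝ) else 0 with ha
  have ha0 : ∀ t s, 0 ≤ a t s := fun t s => by rw [ha]; dsimp only; split_ifs <;> norm_num
  have ha1 : ∀ t s, a t s ≤ 1 := fun t s => by rw [ha]; dsimp only; split_ifs <;> norm_num
  set p : Fin N → ℝ := fun t => mean (a t) with hp
  -- the product for the position `t`
  have hprod : ∀ t, (mean fun s : Fin N → T =>
      ∏ t', (if t' = t then a t' (s t') else 1 - a t' (s t'))) =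
      p t * ∏ t' ∈ Finset.univ.erase t, (1 - p t') := by
    intro t
    have h := mean_pi (T := T) fun (t' : Fin N) (s : T) => if t' = t then a t' s else 1 - a t' s
    rw [h, ← Finset.mul_prod_erase Finset.univ _ (Finset.mem_univ t)]
    congr 1
    · simp [hp]
    · refine Finset.prod_congr rfl fun t' ht' => ?_
      rw [Finset.mem_erase] at ht'
      simp only [if_neg ht'.1]
      rw [mean_sub, mean_const]
  have hle : ∀ s : Fin N → T, ∑ t, ∏ t', (if t' = t then a t' (s t') else 1 - a t' (s t')) ≤
      if ∃! t, A t (s t) then (1 : ℝ) else 0 := by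
    intro s
    split_ifs with hex
    · obtain ⟨t0, h1, h2⟩ := hex
      rw [Finset.sum_eq_single t0]
      · apply Finset.prod_le_one
        · intro t' _
          split_ifs
          · exact ha0 _ _
          · have := ha1 t' (s t')
            linarith
        · intro t' _
          split_ifs
          · exact ha1 _ _
          · have := ha0 t' (s t')
            linarith
      · intro t _ ht
        apply Finset.prod_eq_zero (Finset.mem_univ t)
        rw [if_pos rfl, ha]
        exact if_neg fun h => ht (h2 t h)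
      · intro h
        exact absurd (Finset.mem_univ t0) h
    · apply le_of_eq
      apply Finset.sum_eq_zero
      intro t _
      by_cases ht : A t (s t)
      · have : ∃ t', t' ≠ t ∧ A t' (s t') := by
          by_contra hno
          push Not at hno
          exact hex ⟨t, ht, fun t' ht' => by
            by_contra hne
            exact hno t' hne ht'⟩
        obtain ⟨t', h1, h2⟩ := this
        apply Finset.prod_eq_zero (Finset.mem_univ t')
        rw [if_neg h1, ha]
        simp only [if_pos h2, sub_self]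
      · apply Finset.prod_eq_zero (Finset.mem_univ t)
        rw [if_pos rfl, ha]
        exact if_neg ht
  refine le_trans (le_of_eq ?_) (mean_mono hle)
  rw [mean_sum]
  exact (Finset.sum_congr rfl fun t _ => hprod t).symm

lemma third_le {N : ℕ} (hN : 2 ≤ N) : (1 / 3 : ℝ) ≤ (1 - 1 / (N : ℝ)) ^ (N - 1) := by
  obtain ⟨n, rfl⟩ : ∃ n, N = n + 2 := ⟨N - 2, by omega⟩
  have hn : (0 : ℝ) < (n : ℝ) + 1 := by positivity
  have h1 : (1 + 1 / ((n : ℝ) + 1)) ^ (n + 1) ≤ 3 := by
    have h2 : 1 + 1 / ((n : ℝ) + 1) ≤ Real.exp (1 / ((n : ℝ) + 1)) := by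
      have := Real.add_one_le_exp (1 / ((n : ℝ) + 1))
      linarith
    have h3 : (1 + 1 / ((n : ℝ) + 1)) ^ (n + 1) ≤ Real.exp (1 / ((n : ℝ) + 1)) ^ (n + 1) :=
      pow_le_pow_left₀ (by positivity) h2 _
    rw [← Real.exp_nat_mul] at h3
    have h4 : ((n + 1 : ℕ) : ℝ) * (1 / ((n : ℝ) + 1)) = 1 := by
      push_cast
      field_simp
    rw [h4] at h3
    have := Real.exp_one_lt_d9
    linarith
  have h5 : (1 - 1 / ((n + 2 : ℕ) : ℝ)) = (1 + 1 / ((n : ℝ) + 1))⁻¹ := by
    push_cast
    field_simp
    ring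
  have h6 : n + 2 - 1 = n + 1 := by omega
  rw [h5, h6, inv_pow, one_div]
  exact inv_anti₀ (by positivity) h1

end product

/-- The value of the program in terms of the blocks. -/
noncomputable def pv {S M : Type} [Monoid M] (u v : M) (w N i : ℕ) (X : Inp S w)
    (s : Fin (2 ^ i) → Inp S w) : M :=
  ((List.finRange (2 ^ i)).map fun t : Fin (2 ^ i) =>
    if (t : ℕ) < N then u ^ df w (s t) X * v else 1).prod

lemma pv_eq {S M : Type} [Fintype S] [Monoid M] (u v : M) (w N i : ℕ) (X : Inp S w)
    (x : Inp S (w + i)) : pv u v w N i X (blkEquiv w i x) = ival (w + i) (lt u v w N X) x := by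
  unfold pv
  rw [ival_blocks, ← List.map_coe_finRange_eq_range, List.map_map]
  congr 1
  apply List.map_congr_left
  intro t _
  simp only [Function.comp_apply, blkEquiv_apply]
  split_ifs with h
  · rw [block_value u v w N X h]
  · rw [block_one u v w N X (not_lt.1 h)]

open Classical in
/-- The generator misses an accepting set of measure at least `1/3`, if the block seeds are less
than the block contents. -/
theorem misses {M : Type} [Monoid M] [Finite M] (hO : ¬ Orth M) {S : Type} [Fintype S]
    (hS : 2 ≤ Fintype.card S) {d : ℕ → ℕ} (Γ : ∀ k, Seed S d k → Fin (d k) → Seed S d k)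
    {w k : ℕ} (hw : Fintype.card (Seed S d w) < Fintype.card S ^ (2 ^ w))
    (hk : 2 ^ w * Fintype.card S ^ (2 ^ w) ≤ 2 ^ k) :
    ∃ (c : Fin (2 ^ k) → S → M) (F : Set M),
      1 / 3 ≤ frac {x : Fin (2 ^ k) → S | Helper68.INW.value c x ∈ F} ∧
      ∀ v : Seed S d k, Helper68.INW.value c (fun t => out Γ k v t) ∉ F := by
  have hSne : Nonempty S := Fintype.card_pos_iff.1 (by omega)
  obtain ⟨u, v, y, hdet⟩ := exists_det hO
  set N := Fintype.card S ^ (2 ^ w) with hN
  have hN2 : 2 ≤ N := by
    calc 2 ≤ Fintype.card S := hS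
      _ = Fintype.card S ^ 1 := (pow_one _).symm
      _ ≤ Fintype.card S ^ (2 ^ w) := Nat.pow_le_pow_right (by omega) (Nat.one_le_two_pow)
  -- the missing block
  obtain ⟨X, hX⟩ : ∃ X : Inp S w, ∀ v : Seed S d w, tin Γ w v ≠ X := by
    by_contra hno
    push Not at hno
    have := Fintype.card_le_of_surjective (tin Γ w) fun X => hno X
    rw [card_inp] at this
    omega
  have hwk : w ≤ k := by
    have h1 : 2 ^ w ≤ 2 ^ k := le_trans (Nat.le_mul_of_pos_right _ (by omega)) hk
    exact (Nat.pow_le_pow_iff_right (by norm_num)).1 h1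
  obtain ⟨i, rfl⟩ := Nat.exists_eq_add_of_le hwk
  have hNi : N ≤ 2 ^ i := by
    rw [pow_add] at hk
    exact Nat.le_of_mul_le_mul_left hk (pow_pos (by norm_num) w)
  refine ⟨fun n => lt u v w N X n, {m | y * m ≠ y}, ?_, ?_⟩
  · rw [frac_eq_mean]
    have e1 : mean (Set.indicator {x : Fin (2 ^ (w + i)) → S | Helper68.INW.value
        (fun n : Fin (2 ^ (w + i)) => lt u v w N X n) x ∈ {m | y * m ≠ y}} fun _ => (1 : ℝ)) =
        mean fun s : Fin (2 ^ i) → Inp S w =>
          if y * pv u v w N i X s ≠ y then (1 : ℝ) else 0 := by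
      unfold mean
      rw [← Fintype.card_congr (flatEquiv (w + i)), ← Equiv.sum_comp (flatEquiv (w + i)),
        ← Fintype.card_congr (blkEquiv w i), ← Equiv.sum_comp (blkEquiv w i)]
      congr 1
      refine Finset.sum_congr rfl fun x _ => ?_
      rw [Set.indicator_apply]
      simp only [Set.mem_ofPred_eq, value_flat, pv_eq]
    rw [e1]
    -- exactly one match
    obtain ⟨A, hA⟩ : ∃ A : Fin (2 ^ i) → Inp S w → Prop, ∀ t s, A t s ↔ ((t : ℕ) < N ∧ s = X) :=
      ⟨_, fun _ _ => Iff.rfl⟩
    have h3 := exactly_one A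
    have h4 : (mean fun s : Fin (2 ^ i) → Inp S w =>
        if ∃! t : Fin (2 ^ i), A t (s t) then (1 : ℝ) else 0) ≤
        mean fun s : Fin (2 ^ i) → Inp S w =>
          if y * pv u v w N i X s ≠ y then (1 : ℝ) else 0 := by
      apply mean_mono
      intro s
      by_cases hex : ∃! t : Fin (2 ^ i), A t (s t)
      · rw [if_pos hex, if_pos]
        simp only [hA] at hex
        set x := (blkEquiv w i).symm s with hx
        have hsx : s = blkEquiv w i x := by rw [hx, Equiv.apply_symm_apply]
        have hxs : ∀ t : Fin (2 ^ i), iblk w i x t = s t := by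
          intro t
          rw [← blkEquiv_apply, hsx]
        rw [hsx, pv_eq, prog_value u v w i N hNi X x]
        apply hdet.of_one _ List.nodup_range
        obtain ⟨t, ⟨ht1, ht2⟩, hu⟩ := hex
        refine ⟨t, ⟨List.mem_range.2 ht1, ?_⟩, ?_⟩
        · rw [df_eq_zero, hxs]
          exact ht2
        · rintro t' ⟨h1, h2⟩
          have h1' := List.mem_range.1 h1
          rw [df_eq_zero] at h2
          have h6 := hxs ⟨t', h1'.trans_le hNi⟩
          have h7 : s ⟨t', h1'.trans_le hNi⟩ = X := by
            rw [← h6]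
            exact h2
          exact congrArg Fin.val (hu ⟨t', h1'.trans_le hNi⟩ ⟨h1', h7⟩)
      · rw [if_neg hex]
        split_ifs <;> norm_num
    refine le_trans ?_ (h3.trans h4)
    -- the probability
    have hNr : (0 : ℝ) < N := by exact_mod_cast (show 0 < N by omega)
    have hp : ∀ t : Fin (2 ^ i), (mean fun s : Inp S w => if A t s then
        (1 : ℝ) else 0) = if (t : ℕ) < N then 1 / (N : ℝ) else 0 := by
      intro t
      by_cases ht : (t : ℕ) < N
      · rw [if_pos ht]
        have e2 : (fun s : Inp S w => if A t s then (1 : ℝ) else 0) =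
            fun s => if s = X then (1 : ℝ) else 0 := by
          funext s
          by_cases hs : s = X
          · rw [if_pos ((hA t s).2 ⟨ht, hs⟩), if_pos hs]
          · rw [if_neg fun h => hs ((hA t s).1 h).2, if_neg hs]
        rw [e2]
        unfold mean
        rw [Finset.sum_ite_eq' Finset.univ X fun _ => (1 : ℝ), if_pos (Finset.mem_univ _),
          card_inp]
      · rw [if_neg ht]
        have e2 : (fun s : Inp S w => if A t s then (1 : ℝ) else 0) = fun s => 0 := by
          funext s
          rw [if_neg fun h => ht ((hA t s).1 h).1]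
        rw [e2]
        simp [mean]
    simp only [hp]
    have hcf : (Finset.univ.filter fun t' : Fin (2 ^ i) => (t' : ℕ) < N).card = N := by
      exact (Fin.card_filter_val_lt (n := 2 ^ i) (m := N)).trans (min_eq_right hNi)
    have hterm : ∀ t : Fin (2 ^ i), (if (t : ℕ) < N then 1 / (N : ℝ) else 0) *
        ∏ t' ∈ Finset.univ.erase t, (1 - if (t' : ℕ) < N then 1 / (N : ℝ) else 0) =
        if (t : ℕ) < N then 1 / (N : ℝ) * (1 - 1 / (N : ℝ)) ^ (N - 1) else 0 := by
      intro t
      by_cases ht : (t : ℕ) < N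
      · rw [if_pos ht, if_pos ht]
        congr 1
        have e : ∀ t' : Fin (2 ^ i), (1 - if (t' : ℕ) < N then 1 / (N : ℝ) else 0) =
            if (t' : ℕ) < N then 1 - 1 / (N : ℝ) else 1 := by
          intro t'
          split_ifs <;> simp
        simp only [e]
        rw [Finset.prod_ite, Finset.prod_const_one, mul_one, Finset.prod_const]
        congr 1
        have e2 : (Finset.univ.erase t).filter (fun t' : Fin (2 ^ i) => (t' : ℕ) < N) =
            (Finset.univ.filter fun t' : Fin (2 ^ i) => (t' : ℕ) < N).erase t := by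
          ext t'
          simp only [Finset.mem_filter, Finset.mem_erase, Finset.mem_univ, true_and, and_true]
        rw [e2, Finset.card_erase_of_mem, hcf]
        exact Finset.mem_filter.2 ⟨Finset.mem_univ _, ht⟩
      · rw [if_neg ht, if_neg ht, zero_mul]
    rw [Finset.sum_congr rfl fun t _ => hterm t, ← Finset.sum_filter, Finset.sum_const,
      hcf, nsmul_eq_mul]
    have h7 := third_le hN2
    have h8 : (N : ℝ) * (1 / (N : ℝ) * (1 - 1 / (N : ℝ)) ^ (N - 1)) =
        (1 - 1 / (N : ℝ)) ^ (N - 1) := by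
      field_simp
    rw [h8]
    exact h7
  · intro v'
    rw [value_out Γ (w + i) (lt u v w N X) v', Set.mem_ofPred_eq, not_not,
      prog_value u v w i N hNi X]
    apply hdet.of_none
    intro t _ h
    rw [df_eq_zero, iblk_tin] at h
    exact hX _ h

lemma card_seed (S : Type) [Fintype S] (d : ℕ → ℕ) (b : ℕ) :
    ∀ w : ℕ, (∀ j < w, d j ≤ 2 ^ b) → Fintype.card (Seed S d w) ≤ Fintype.card S * 2 ^ (b * w)
  | 0, _ => by
    rw [mul_zero, pow_zero, mul_one]
    exact le_rfl
  | w + 1, h => by
    have h1 : Fintype.card (Seed S d (w + 1)) = Fintype.card (Seed S d w) * Fintype.card (Fin (d w)) :=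
      Fintype.card_prod _ _
    rw [h1, Fintype.card_fin]
    calc Fintype.card (Seed S d w) * d w ≤ (Fintype.card S * 2 ^ (b * w)) * 2 ^ b :=
          Nat.mul_le_mul (card_seed S d b w fun j hj => h j (by omega)) (h w (by omega))
      _ = Fintype.card S * 2 ^ (b * (w + 1)) := by
        rw [mul_add, mul_one, pow_add]
        ring

/-- The generator misses an accepting set if the degrees are small. -/
theorem negative {M : Type} [Monoid M] [Finite M] (hO : ¬ Orth M) {S : Type} [Fintype S]
    (hS : 2 ≤ Fintype.card S) {b : ℕ} (hb : 1 ≤ b) {d : ℕ → ℕ}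
    (hdb : ∀ j < 4 * (Nat.log 2 b + 1), d j ≤ 2 ^ b)
    (Γ : ∀ k, Seed S d k → Fin (d k) → Seed S d k) {k : ℕ}
    (hk : 8 * (Nat.clog 2 (Fintype.card S) + 1) * (b * (Nat.log 2 b + 1)) ≤ k) :
    ∃ (c : Fin (2 ^ k) → S → M) (F : Set M),
      1 / 3 ≤ frac {x : Fin (2 ^ k) → S | Helper68.INW.value c x ∈ F} ∧
      ∀ v : Seed S d k, Helper68.INW.value c (fun t => out Γ k v t) ∉ F := by
  set q := Fintype.card S with hq
  set l := Nat.log 2 b + 1 with hl
  have hbl : b < 2 ^ l := Nat.lt_pow_succ_log_self (by norm_num) b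
  have hlb : 2 ^ l ≤ 2 * b := by
    rw [hl, pow_succ, mul_comm]
    exact Nat.mul_le_mul_left 2 (Nat.pow_log_le_self 2 (by omega))
  have hl1 : 1 ≤ l := by omega
  set e := Nat.log 2 l with he
  have hel : l < 2 ^ (e + 1) := Nat.lt_pow_succ_log_self (by norm_num) l
  have hle : 2 ^ e ≤ l := Nat.pow_log_le_self 2 (by omega)
  have hee : e < 2 ^ e := Nat.lt_two_pow_self
  set w := l + (e + 2) with hw
  have h2w : 2 ^ w = 2 ^ l * (4 * 2 ^ e) := by
    rw [hw, pow_add, pow_add]
    ring
  have hw8 : 2 ^ w ≤ 8 * (b * l) := by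
    rw [h2w]
    calc 2 ^ l * (4 * 2 ^ e) ≤ (2 * b) * (4 * l) :=
          Nat.mul_le_mul hlb (Nat.mul_le_mul_left 4 hle)
      _ = 8 * (b * l) := by ring
  have hbw : b * w + 2 ≤ 2 ^ w := by
    rw [h2w]
    have h1 : w ≤ 4 * 2 ^ e := by
      rw [pow_succ] at hel
      omega
    have h2 : (b + 1) * w ≤ 2 ^ l * (4 * 2 ^ e) := Nat.mul_le_mul hbl h1
    have h3 : 2 ≤ w := by omega
    nlinarith
  have hw4 : w ≤ 4 * l := by omega
  refine misses hO hS Γ (w := w) ?_ ?_
  · -- the block seeds
    have h1 := card_seed S d b w fun j hj => hdb j (by omega)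
    rw [← hq] at h1 ⊢
    refine h1.trans_lt ?_
    have h2 : q ^ (2 ^ w) = q * q ^ (2 ^ w - 1) := by
      rw [← pow_succ']
      congr 1
      omega
    rw [h2]
    apply Nat.mul_lt_mul_of_pos_left _ (by omega)
    calc 2 ^ (b * w) < 2 ^ (2 ^ w - 1) := Nat.pow_lt_pow_right (by norm_num) (by omega)
      _ ≤ q ^ (2 ^ w - 1) := Nat.pow_le_pow_left hS _
  · rw [← hq]
    have h1 : q ≤ 2 ^ (Nat.clog 2 q) := Nat.le_pow_clog (by norm_num) q
    have h2 : q ^ (2 ^ w) ≤ 2 ^ (Nat.clog 2 q * 2 ^ w) := by
      rw [pow_mul]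
      exact Nat.pow_le_pow_left h1 _
    have h3 : w ≤ 2 ^ w := Nat.lt_two_pow_self.le
    calc 2 ^ w * q ^ (2 ^ w) ≤ 2 ^ w * 2 ^ (Nat.clog 2 q * 2 ^ w) := Nat.mul_le_mul_left _ h2
      _ = 2 ^ (w + Nat.clog 2 q * 2 ^ w) := (pow_add 2 w _).symm
      _ ≤ 2 ^ k := by
        apply Nat.pow_le_pow_right (by norm_num)
        refine le_trans ?_ hk
        calc w + Nat.clog 2 q * 2 ^ w ≤ (Nat.clog 2 q + 1) * 2 ^ w := by
              rw [add_mul, one_mul]
              omega
          _ ≤ (Nat.clog 2 q + 1) * (8 * (b * l)) := Nat.mul_le_mul_left _ hw8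
          _ = 8 * (Nat.clog 2 q + 1) * (b * l) := by ring

end Helper68.INW
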