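import Pool.Agent.Helper68.INW.Pos
import Pool.Agent.Helper12.GR.NegAlg

set_option autoImplicit false
set_option linter.unusedSectionVars false

/-!
Programs that detect a unique block with a given content.
-/

namespace Helper68.INW

open Helper12.GR Helper12.BI

section trees

variable {S : Type} {d : ℕ → ℕ} {M : Type} [Monoid M]

/-- The seeds of the blocks of length `2 ^ w`. -/
def blk (Γ : ∀ k, Seed S d k → Fin (d k) → Seed S d k) (w : ℕ) :
    ∀ i, Seed S d (w + i) → ℕ → Seed S d w
  | 0, v, _ => v
  | i + 1, v, t => if t < 2 ^ i then blk Γ w i v.1 t else blk Γ w i (Γ (w + i) v.1 v.2) (t - 2 ^ i)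

/-- The blocks of an input. -/
def iblk (w : ℕ) : ∀ i, Inp S (w + i) → ℕ → Inp S w
  | 0, x, _ => x
  | i + 1, x, t => if t < 2 ^ i then iblk w i x.1 t else iblk w i x.2 (t - 2 ^ i)

lemma iblk_tin (Γ : ∀ k, Seed S d k → Fin (d k) → Seed S d k) (w : ℕ) :
    ∀ (i : ℕ) (v : Seed S d (w + i)) (t : ℕ),
      iblk w i (tin Γ (w + i) v) t = tin Γ w (blk Γ w i v t)
  | 0, _, _ => rfl
  | i + 1, v, t => by
    simp only [iblk, blk]
    split_ifs
    · exact iblk_tin Γ w i v.1 t
    · exact iblk_tin Γ w i (Γ (w + i) v.1 v.2) (t - 2 ^ i)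

lemma ival_blocks (w : ℕ) : ∀ (i : ℕ) (c : ℕ → S → M) (x : Inp S (w + i)),
    ival (w + i) c x =
      ((List.range (2 ^ i)).map fun t => ival w (fun j => c (j + t * 2 ^ w)) (iblk w i x t)).prod
  | 0, c, x => by
    simp [iblk]
  | i + 1, c, x => by
    have h : ival (w + (i + 1)) c x =
      ival (w + i) c x.1 * ival (w + i) (fun t => c (t + 2 ^ (w + i))) x.2 := rfl
    rw [h, ival_blocks w i, ival_blocks w i]
    rw [show 2 ^ (i + 1) = 2 ^ i + 2 ^ i by ring, List.range_add, List.map_append, List.prod_append]
    congr 1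
    · congr 1
      apply List.map_congr_left
      intro t ht
      rw [List.mem_range] at ht
      simp [iblk, ht]
    · rw [List.map_map]
      congr 1
      apply List.map_congr_left
      intro t ht
      have h1 : iblk w (i + 1) x (2 ^ i + t) = iblk w i x.2 t := by
        simp [iblk]
      simp only [Function.comp_apply, h1]
      congr 1
      funext j
      congr 1
      ring

lemma iblk_inj (w : ℕ) : ∀ (i : ℕ) (x y : Inp S (w + i)),
    (∀ t < 2 ^ i, iblk w i x t = iblk w i y t) → x = y
  | 0, x, y, h => h 0 (by norm_num)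
  | i + 1, x, y, h => by
    have h1 : x.1 = y.1 := iblk_inj w i _ _ fun t ht => by
      have := h t (by rw [pow_succ]; omega)
      simpa only [iblk, if_pos ht] using this
    have h2 : x.2 = y.2 := iblk_inj w i _ _ fun t ht => by
      have := h (t + 2 ^ i) (by rw [pow_succ]; omega)
      simpa [iblk] using this
    exact Prod.ext h1 h2

/-- An input is the sequence of its blocks. -/
noncomputable def blkEquiv [Fintype S] (w i : ℕ) : Inp S (w + i) ≃ (Fin (2 ^ i) → Inp S w) :=
  Equiv.ofBijective (fun x t => iblk w i x t) (by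
    classical
    rw [Fintype.bijective_iff_injective_and_card]
    refine ⟨fun x y h => iblk_inj w i x y fun t ht => congrFun h ⟨t, ht⟩, ?_⟩
    rw [Fintype.card_fun, card_inp, card_inp, Fintype.card_fin, ← pow_mul, pow_add])

lemma blkEquiv_apply [Fintype S] (w i : ℕ) (x : Inp S (w + i)) (t : Fin (2 ^ i)) :
    blkEquiv w i x t = iblk w i x t := rfl

lemma value_flat [Fintype S] (k : ℕ) (c : ℕ → S → M) (x : Inp S k) :
    Helper68.INW.value (fun i : Fin (2 ^ k) => c i) (flatEquiv k x) = ival k c x := by
  rw [← gval_flat]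
  unfold Helper68.INW.value gval
  rw [List.ofFn_eq_map]

lemma value_out [Fintype S] (Γ : ∀ k, Seed S d k → Fin (d k) → Seed S d k) (k : ℕ)
    (c : ℕ → S → M) (v : Seed S d k) :
    Helper68.INW.value (fun i : Fin (2 ^ k) => c i) (fun t => out Γ k v t) =
      ival k c (tin Γ k v) := by
  rw [← value_flat]
  congr 1
  funext t
  rw [flatEquiv_apply, flat_tin]

end trees

section detect

variable {M : Type} [Monoid M]

/-- A detector of a unique zero exponent. -/
structure Detector (u v y : M) : Prop where
  none : ∀ l : List ℕ, 0 ∉ l → y * (l.map fun r => u ^ r * v).prod = y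
  one : ∀ l1 l2 : List ℕ, 0 ∉ l1 → 0 ∉ l2 →
    y * ((l1 ++ 0 :: l2).map fun r => u ^ r * v).prod ≠ y

lemma Detector.of_none {u v y : M} (h : Detector u v y) (l : List ℕ) (r : ℕ → ℕ)
    (hr : ∀ t ∈ l, r t ≠ 0) : y * (l.map fun t => u ^ r t * v).prod = y := by
  have h1 := h.none (l.map r) (fun h0 => by
    obtain ⟨t, ht, h2⟩ := List.mem_map.1 h0
    exact hr t ht h2)
  rwa [List.map_map] at h1

lemma Detector.of_one {u v y : M} (h : Detector u v y) (l : List ℕ) (hl : l.Nodup) (r : ℕ → ℕ)
    (hr : ∃! t, t ∈ l ∧ r t = 0) : y * (l.map fun t => u ^ r t * v).prod ≠ y := by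
  obtain ⟨t0, ⟨ht0, hr0⟩, huniq⟩ := hr
  obtain ⟨l1, l2, rfl⟩ := List.append_of_mem ht0
  rw [List.nodup_append] at hl
  obtain ⟨-, hl2, hdis⟩ := hl
  rw [List.nodup_cons] at hl2
  have h1 := h.one (l1.map r) (l2.map r) ?_ ?_
  · have e : l1.map r ++ 0 :: l2.map r = (l1 ++ t0 :: l2).map r := by
      rw [List.map_append, List.map_cons, hr0]
    rw [e, List.map_map] at h1
    exact h1
  · intro h0
    obtain ⟨t, ht, h2⟩ := List.mem_map.1 h0
    have := huniq t ⟨List.mem_append_left _ ht, h2⟩
    exact hdis t ht t0 List.mem_cons_self this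
  · intro h0
    obtain ⟨t, ht, h2⟩ := List.mem_map.1 h0
    have := huniq t ⟨List.mem_append_right _ (List.mem_cons_of_mem _ ht), h2⟩
    exact hl2.1 (this ▸ ht)

theorem exists_det {M : Type} [Monoid M] [Finite M] (h : ¬ Orth M) :
    ∃ u v y : M, Detector u v y := by
  obtain ⟨u, v, y, h1, h2⟩ := exists_detector h
  exact ⟨u, v, y, h1, h2⟩

end detect

section letters

variable {S : Type} {M : Type} [Monoid M]

open Classical in
/-- The letters of the program: it compares the first `N` blocks with `X`. -/
noncomputable def lt (u v : M) (w N : ℕ) (X : Inp S w) (n : ℕ) (s : S) : M :=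
  if n < N * 2 ^ w then
    (if s = flat w X (n % 2 ^ w) then 1 else u) * (if n % 2 ^ w + 1 = 2 ^ w then v else 1)
  else 1

open Classical in
/-- The number of differences. -/
noncomputable def df (w : ℕ) (x z : Inp S w) : ℕ :=
  ((List.range (2 ^ w)).filter fun j => decide (flat w x j ≠ flat w z j)).length

lemma df_eq_zero {w : ℕ} {x z : Inp S w} : df w x z = 0 ↔ x = z := by
  classical
  unfold df
  rw [List.length_eq_zero_iff, List.filter_eq_nil_iff]
  constructor
  · intro h
    apply flat_inj
    intro t ht
    have := h t (List.mem_range.2 ht)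
    simpa using this
  · rintro rfl j _
    simp

open Classical in
lemma prod_letters (u : M) (P : ℕ → Prop) (l : List ℕ) :
    (l.map fun j => if P j then 1 else u).prod =
      u ^ (l.filter fun j => decide (¬ P j)).length := by
  induction l with
  | nil => simp
  | cons j l ih =>
    rw [List.map_cons, List.prod_cons, ih]
    by_cases h : P j
    · rw [if_pos h, one_mul, List.filter_cons_of_neg (by simpa using h)]
    · rw [if_neg h, List.filter_cons_of_pos (by simpa using h), List.length_cons, pow_succ']

lemma prod_last (v : M) (a : ℕ → M) (n : ℕ) :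
    ((List.range (n + 1)).map fun j => a j * (if j + 1 = n + 1 then v else 1)).prod =
      ((List.range (n + 1)).map a).prod * v := by
  rw [List.range_succ, List.map_append, List.map_append, List.prod_append, List.prod_append]
  have h : (List.range n).map (fun j => a j * (if j + 1 = n + 1 then v else 1)) =
      (List.range n).map a := by
    apply List.map_congr_left
    intro j hj
    rw [List.mem_range] at hj
    rw [if_neg (by omega), mul_one]
  rw [h]
  simp [mul_assoc]

lemma block_value (u v : M) (w N : ℕ) (X : Inp S w) {t : ℕ} (ht : t < N) (x : Inp S w) :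
    ival w (fun j => lt u v w N X (j + t * 2 ^ w)) x = u ^ df w x X * v := by
  classical
  rw [ival_eq]
  have hpos : 0 < 2 ^ w := pow_pos (by norm_num) w
  have h1 : (List.range (2 ^ w)).map (fun j => lt u v w N X (j + t * 2 ^ w) (flat w x j)) =
      (List.range (2 ^ w)).map (fun j => (if flat w x j = flat w X j then 1 else u) *
        (if j + 1 = 2 ^ w then v else 1)) := by
    apply List.map_congr_left
    intro j hj
    rw [List.mem_range] at hj
    have h3 : (j + t * 2 ^ w) % 2 ^ w = j := by
      rw [Nat.add_mul_mod_self_right, Nat.mod_eq_of_lt hj]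
    have h4 : j + t * 2 ^ w < N * 2 ^ w := by
      calc j + t * 2 ^ w < 2 ^ w + t * 2 ^ w := by omega
        _ = (t + 1) * 2 ^ w := by ring
        _ ≤ N * 2 ^ w := Nat.mul_le_mul_right _ ht
    unfold lt
    rw [if_pos h4, h3]
  rw [h1]
  obtain ⟨n, hn⟩ : ∃ n, 2 ^ w = n + 1 := ⟨2 ^ w - 1, by omega⟩
  have h5 := prod_last v (fun j => if flat w x j = flat w X j then (1 : M) else u) n
  rw [← hn] at h5
  rw [h5, prod_letters]
  rfl

lemma block_one (u v : M) (w N : ℕ) (X : Inp S w) {t : ℕ} (ht : N ≤ t) (x : Inp S w) :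
    ival w (fun j => lt u v w N X (j + t * 2 ^ w)) x = 1 := by
  classical
  rw [ival_eq]
  have h1 : (List.range (2 ^ w)).map (fun j => lt u v w N X (j + t * 2 ^ w) (flat w x j)) =
      (List.range (2 ^ w)).map (fun _ => (1 : M)) := by
    apply List.map_congr_left
    intro j _
    have h2 : N * 2 ^ w ≤ t * 2 ^ w := Nat.mul_le_mul_right _ ht
    unfold lt
    rw [if_neg (by omega)]
  rw [h1]
  simp

lemma prog_value (u v : M) (w i N : ℕ) (hN : N ≤ 2 ^ i) (X : Inp S w) (x : Inp S (w + i)) :
    ival (w + i) (lt u v w N X) x =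
      ((List.range N).map fun t => u ^ df w (iblk w i x t) X * v).prod := by
  rw [ival_blocks]
  obtain ⟨r, hr⟩ := Nat.exists_eq_add_of_le hN
  rw [hr, List.range_add, List.map_append, List.prod_append]
  have h2 : (((List.range r).map (fun x => N + x)).map fun t =>
      ival w (fun j => lt u v w N X (j + t * 2 ^ w)) (iblk w i x t)).prod = 1 := by
    rw [List.map_map]
    have : (List.range r).map ((fun t => ival w (fun j => lt u v w N X (j + t * 2 ^ w))
        (iblk w i x t)) ∘ fun x => N + x) = (List.range r).map (fun _ => (1 : M)) := by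
      apply List.map_congr_left
      intro t _
      exact block_one u v w N X (Nat.le_add_right N t) _
    rw [this]
    simp
  rw [h2, mul_one]
  congr 1
  apply List.map_congr_left
  intro t ht
  exact block_value u v w N X (List.mem_range.1 ht) _

end letters

end Helper68.INW
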