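import Pool.Agent.Helper68.INW.Tree

set_option autoImplicit false
set_option linter.unusedSectionVars false

/-!
The error of the generator for programs over groups: telescoping over the tree.
-/

namespace Helper68.INW

open scoped InnerProductSpace

section cov

variable {H : Type} [NormedAddCommGroup H] [InnerProductSpace ℝ H]

lemma vari_eq {V : Type} [Fintype V] [Nonempty V] (f : V → ℝ) :
    vari f = mean (fun v => f v ^ 2) - mean f ^ 2 := by
  have hc : (Fintype.card V : ℝ) ≠ 0 := by exact_mod_cast Fintype.card_ne_zero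
  unfold vari
  set m := mean f with hm
  have hs : ∑ v, f v = m * Fintype.card V := by
    rw [hm, mean, div_mul_cancel₀ _ hc]
  have h1 : ∑ v, (f v - m) ^ 2 = ∑ v, f v ^ 2 - m ^ 2 * Fintype.card V := by
    have : ∀ v, (f v - m) ^ 2 = f v ^ 2 - 2 * m * f v + m ^ 2 := fun v => by ring
    simp only [this, Finset.sum_add_distrib, Finset.sum_sub_distrib, ← Finset.mul_sum, hs,
      Finset.sum_const, Finset.card_univ, nsmul_eq_mul]
    ring
  unfold mean
  rw [h1, sub_div, mul_div_assoc, div_self hc, mul_one]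

lemma vari_nonneg {V : Type} [Fintype V] (f : V → ℝ) : 0 ≤ vari f :=
  mean_nonneg fun v => sq_nonneg _

lemma mean_sum {V ι : Type} [Fintype V] [Fintype ι] (F : ι → V → ℝ) :
    (mean fun v => ∑ i, F i v) = ∑ i, mean (F i) := by
  unfold mean
  rw [Finset.sum_comm, Finset.sum_div]

/-- The vector valued form of the expander inequality. -/
lemma cov_le [FiniteDimensional ℝ H] {V : Type} [Fintype V] [Nonempty V] {d : ℕ}
    {Γ : V → Fin d → V} {lam : ℝ} (hlam : 0 ≤ lam) (hΓ : IsExpander Γ lam) (f g : V → H) :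
    |mean (fun p : V × Fin d => ⟪f p.1, g (Γ p.1 p.2)⟫_ℝ) - ⟪vm f, vm g⟫_ℝ| ≤
      lam * (Real.sqrt (mean (fun v => ‖f v‖ ^ 2) - ‖vm f‖ ^ 2) *
        Real.sqrt (mean (fun v => ‖g v‖ ^ 2) - ‖vm g‖ ^ 2)) := by
  set b := stdOrthonormalBasis ℝ H with hb
  have hin : ∀ x y : H, ⟪x, y⟫_ℝ = ∑ i, ⟪b i, x⟫_ℝ * ⟪b i, y⟫_ℝ := by
    intro x y
    rw [← b.sum_inner_mul_inner x y]
    refine Finset.sum_congr rfl fun i _ => ?_
    rw [real_inner_comm]
  have hnorm : ∀ x : H, ‖x‖ ^ 2 = ∑ i, ⟪b i, x⟫_ℝ ^ 2 := by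
    intro x
    rw [← real_inner_self_eq_norm_sq, hin]
    refine Finset.sum_congr rfl fun i _ => ?_
    rw [sq]
  have hvar : ∀ f : V → H, ∑ i, vari (fun v => ⟪b i, f v⟫_ℝ) =
      mean (fun v => ‖f v‖ ^ 2) - ‖vm f‖ ^ 2 := by
    intro f
    simp only [vari_eq, Finset.sum_sub_distrib]
    congr 1
    · rw [← mean_sum]
      congr
      funext v
      rw [hnorm]
    · rw [hnorm]
      refine Finset.sum_congr rfl fun i _ => ?_
      rw [inner_vm]
  have h1 : mean (fun p : V × Fin d => ⟪f p.1, g (Γ p.1 p.2)⟫_ℝ) - ⟪vm f, vm g⟫_ℝ =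
      ∑ i, (mean (fun p : V × Fin d => ⟪b i, f p.1⟫_ℝ * ⟪b i, g (Γ p.1 p.2)⟫_ℝ)
        - mean (fun v => ⟪b i, f v⟫_ℝ) * mean (fun v => ⟪b i, g v⟫_ℝ)) := by
    rw [Finset.sum_sub_distrib, ← mean_sum]
    congr 1
    · congr
      funext p
      rw [hin]
    · rw [hin]
      refine Finset.sum_congr rfl fun i _ => ?_
      rw [inner_vm, inner_vm]
  rw [h1]
  refine (Finset.abs_sum_le_sum_abs _ _).trans ?_
  calc ∑ i, |mean (fun p : V × Fin d => ⟪b i, f p.1⟫_ℝ * ⟪b i, g (Γ p.1 p.2)⟫_ℝ)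
        - mean (fun v => ⟪b i, f v⟫_ℝ) * mean (fun v => ⟪b i, g v⟫_ℝ)|
      ≤ ∑ i, lam * (Real.sqrt (vari fun v => ⟪b i, f v⟫_ℝ) *
          Real.sqrt (vari fun v => ⟪b i, g v⟫_ℝ)) := by
        refine Finset.sum_le_sum fun i _ => ?_
        have := hΓ (fun v => ⟪b i, f v⟫_ℝ) (fun v => ⟪b i, g v⟫_ℝ)
        rwa [Real.sqrt_mul (vari_nonneg _)] at this
    _ = lam * ∑ i, (Real.sqrt (vari fun v => ⟪b i, f v⟫_ℝ) *
          Real.sqrt (vari fun v => ⟪b i, g v⟫_ℝ)) := by rw [Finset.mul_sum]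
    _ ≤ _ := by
        refine mul_le_mul_of_nonneg_left ?_ hlam
        rw [← hvar, ← hvar]
        exact Real.sum_sqrt_mul_sqrt_le _ (fun i => vari_nonneg _) (fun i => vari_nonneg _)

end cov

section node

variable {S : Type} {d : ℕ → ℕ} {G : Type} [Group G] [Fintype G]
variable {H : Type} [NormedAddCommGroup H] [InnerProductSpace ℝ H] {ρ : G →* (H ≃ₗᵢ[ℝ] H)}

lemma letter0 {Ω : Type} [Fintype Ω] [Nonempty Ω] (X : Ω → G) : Letter 0 (dst X) :=
  ⟨dst_nonneg X, dst_sum X, fun g _ => dst_nonneg X g⟩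

lemma rho_inner (g : G) (u w : H) : ⟪u, ρ g w⟫_ℝ = ⟪ρ g⁻¹ u, w⟫_ℝ := by
  rw [← LinearIsometryEquiv.inner_map_map (ρ g⁻¹) u (ρ g w), ← rho_mul, inv_mul_cancel, rho_one]

lemma adj {Ω : Type} [Fintype Ω] (X : Ω → G) (u w : H) :
    ⟪u, op ρ (dst X) w⟫_ℝ = ⟪op ρ (dst fun ω => (X ω)⁻¹) u, w⟫_ℝ := by
  rw [op_dst, op_dst, inner_vm, real_inner_comm, inner_vm]
  congr
  funext ω
  rw [rho_inner, real_inner_comm]

lemma drop_dst {Ω : Type} [Fintype Ω] [Nonempty Ω] (X : Ω → G) (y : H) :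
    drop ρ (dst X) y = mean (fun ω => ‖ρ (X ω) y‖ ^ 2) - ‖vm fun ω => ρ (X ω) y‖ ^ 2 := by
  unfold drop
  rw [op_dst]
  congr 1
  simp only [LinearIsometryEquiv.norm_map]
  rw [mean_const]

/-- The error of one node. -/
lemma node_err [FiniteDimensional ℝ H] {V : Type} [Fintype V] [Nonempty V] {d : ℕ}
    {Γ : V → Fin d → V} {lam : ℝ} (hlam : 0 ≤ lam) (hΓ : IsExpander Γ lam) (X Y : V → G)
    (u w : H) :
    |⟪u, op ρ (dst fun p : V × Fin d => X p.1 * Y (Γ p.1 p.2)) w⟫_ℝ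
      - ⟪u, op ρ (dst X) (op ρ (dst Y) w)⟫_ℝ| ≤
      lam * (std ρ (dst fun v => (X v)⁻¹) u * std ρ (dst Y) w) := by
  have h := cov_le hlam hΓ (fun v => ρ (X v)⁻¹ u) (fun v => ρ (Y v) w)
  rw [← drop_dst (ρ := ρ) (fun v => (X v)⁻¹) u, ← drop_dst (ρ := ρ) Y w] at h
  rw [adj X, op_dst, op_dst, op_dst, inner_vm]
  have h1 : (fun p : V × Fin d => ⟪u, ρ (X p.1 * Y (Γ p.1 p.2)) w⟫_ℝ) =
      fun p : V × Fin d => ⟪ρ (X p.1)⁻¹ u, ρ (Y (Γ p.1 p.2)) w⟫_ℝ := by
    funext p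
    rw [rho_mul, rho_inner]
  rw [h1]
  exact h

variable [Fintype S]

/-- The distribution of the value for a random seed. -/
noncomputable def Dd (Γ : ∀ k, Seed S d k → Fin (d k) → Seed S d k) (k : ℕ) (c : ℕ → S → G) :
    G → ℝ := dst fun v : Seed S d k => ival k c (tin Γ k v)

/-- The distribution of the value for a random input. -/
noncomputable def Ud (k : ℕ) (c : ℕ → S → G) : G → ℝ := dst fun x : Inp S k => ival k c x

/-- The inverses of the leaves, from left to right. -/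
noncomputable def leafs : ∀ _ : ℕ, (ℕ → S → G) → List (G → ℝ)
  | 0, c => [dst fun s => (c 0 s)⁻¹]
  | k + 1, c => leafs k c ++ leafs k fun t => c (t + 2 ^ k)

lemma vm_comm {A B : Type} [Fintype A] [Fintype B] (F : A → B → H) :
    (vm fun a => vm fun b => F a b) = vm fun b => vm fun a => F a b := by
  unfold vm
  simp only [← Finset.smul_sum]
  rw [smul_comm, Finset.sum_comm]

lemma run_leafs : ∀ (k : ℕ) (c : ℕ → S → G) (u : H),
    run ρ (leafs k c) u = op ρ (dst fun x : Inp S k => (ival k c x)⁻¹) u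
  | 0, c, u => rfl
  | k + 1, c, u => by
    simp only [leafs]
    rw [run_append, run_leafs k, run_leafs k, op_dst, op_dst, op_dst]
    simp only [map_vm]
    rw [vm_comm]
    have h := vm_prod (H := H) fun (a b : Inp S k) =>
      ρ (ival k (fun t => c (t + 2 ^ k)) b)⁻¹ (ρ (ival k c a)⁻¹ u)
    rw [← h]
    show (vm fun p : Inp S k × Inp S k => _) = vm fun p : Inp S k × Inp S k => _
    congr
    funext p
    rw [← rho_mul]
    congr 2
    rw [← mul_inv_rev]
    rfl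

lemma leafs_letter [Nonempty S] : ∀ (k : ℕ) (c : ℕ → S → G), ∀ p ∈ leafs k c,
    Letter (1 / (Fintype.card S : ℝ)) p
  | 0, c, p, hp => by
    rw [leafs, List.mem_singleton] at hp
    rw [hp]
    exact letter_leaf _
  | k + 1, c, p, hp => by
    rw [leafs] at hp
    rcases List.mem_append.1 hp with h | h
    · exact leafs_letter k _ p h
    · exact leafs_letter k _ p h

lemma op_Ud_succ (k : ℕ) (c : ℕ → S → G) (w : H) :
    op ρ (Ud (k + 1) c) w = op ρ (Ud k c) (op ρ (Ud k fun t => c (t + 2 ^ k)) w) := by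
  unfold Ud
  rw [op_dst, op_dst, op_dst]
  simp only [map_vm]
  have h := vm_prod (H := H) fun (a b : Inp S k) =>
      ρ (ival k c a) (ρ (ival k (fun t => c (t + 2 ^ k)) b) w)
  rw [← h]
  show (vm fun p : Inp S k × Inp S k => _) = vm fun p : Inp S k × Inp S k => _
  congr
  funext p
  rw [← rho_mul]
  rfl

lemma std_le_two {p q : G → ℝ} (hp : Letter 0 p) (hq : Letter 0 q) (h : ∀ g, p g ≤ 2 * q g)
    (y : H) : std ρ p y ≤ 2 * std ρ q y := by
  unfold std
  rw [show (2 : ℝ) * Real.sqrt (drop ρ q y) = Real.sqrt (4 * drop ρ q y) by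
    rw [Real.sqrt_mul (by norm_num), show (4 : ℝ) = 2 ^ 2 by norm_num,
      Real.sqrt_sq (by norm_num)]]
  apply Real.sqrt_le_sqrt
  rw [drop_eq hp, drop_eq hq]
  have : ∑ g, ∑ h, p g * p h * ‖ρ g y - ρ h y‖ ^ 2 ≤
      ∑ g, ∑ h, 4 * (q g * q h * ‖ρ g y - ρ h y‖ ^ 2) := by
    refine Finset.sum_le_sum fun g _ => Finset.sum_le_sum fun h' _ => ?_
    have h1 : p g * p h' ≤ (2 * q g) * (2 * q h') :=
      mul_le_mul (h g) (h h') (hp.nonneg _) (by have := hq.nonneg g; linarith)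
    have h2 := mul_le_mul_of_nonneg_right h1 (sq_nonneg ‖ρ g y - ρ h' y‖)
    linarith
  simp only [← Finset.mul_sum] at this
  linarith

/-- The largest sum of standard deviations along a chain of right children. -/
noncomputable def mch (ρ : G →* (H ≃ₗᵢ[ℝ] H)) (Γ : ∀ k, Seed S d k → Fin (d k) → Seed S d k) :
    ∀ _ : ℕ, (ℕ → S → G) → H → ℝ
  | 0, _, _ => 0
  | k + 1, c, w => max (mch ρ Γ k (fun t => c (t + 2 ^ k)) w)
      (std ρ (Dd Γ k fun t => c (t + 2 ^ k)) w +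
        mch ρ Γ k c (op ρ (Dd Γ k fun t => c (t + 2 ^ k)) w))

lemma mch_eq (Γ : ∀ k, Seed S d k → Fin (d k) → Seed S d k) {P : (G → ℝ) → Prop} :
    ∀ (k : ℕ) (_ : ∀ j < k, ∀ c : ℕ → S → G, P (Dd Γ j c)) (c : ℕ → S → G) (w : H),
      ∃ l : List (G → ℝ), (∀ p ∈ l, P p) ∧ mch ρ Γ k c w = ssum ρ l w
  | 0, _, c, w => ⟨[], by simp, rfl⟩
  | k + 1, hP, c, w => by
    simp only [mch]
    rcases max_choice (mch ρ Γ k (fun t => c (t + 2 ^ k)) w)
      (std ρ (Dd Γ k fun t => c (t + 2 ^ k)) w +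
        mch ρ Γ k c (op ρ (Dd Γ k fun t => c (t + 2 ^ k)) w)) with h | h
    · rw [h]
      exact mch_eq Γ k (fun j hj => hP j (hj.trans (Nat.lt_succ_self k))) _ _
    · rw [h]
      obtain ⟨l, h1, h2⟩ := mch_eq Γ k (fun j hj => hP j (hj.trans (Nat.lt_succ_self k))) c
        (op ρ (Dd Γ k fun t => c (t + 2 ^ k)) w)
      refine ⟨Dd Γ k (fun t => c (t + 2 ^ k)) :: l, ?_, ?_⟩
      · intro p hp
        rcases List.mem_cons.1 hp with rfl | hp
        · exact hP k (Nat.lt_succ_self k) _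
        · exact h1 p hp
      · rw [h2]
        rfl

lemma mch_nonneg (Γ : ∀ k, Seed S d k → Fin (d k) → Seed S d k) (k : ℕ) (c : ℕ → S → G)
    (w : H) : 0 ≤ mch ρ Γ k c w := by
  obtain ⟨l, -, h⟩ := mch_eq (ρ := ρ) Γ (P := fun _ => True) k (fun _ _ _ => trivial) c w
  rw [h]
  exact ssum_nonneg l w

/-- The error is at most a product of two sums. -/
theorem err_le [Nonempty S] [FiniteDimensional ℝ H] (hd : ∀ k, 0 < d k)
    {Γ : ∀ k, Seed S d k → Fin (d k) → Seed S d k} {lam : ℝ} (hlam : 0 ≤ lam)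
    (hΓ : ∀ k, IsExpander (Γ k) lam) : ∀ (k : ℕ)
      (_ : ∀ j < k, ∀ (c : ℕ → S → G) (g : G), Dd Γ j c g ≤ 2 * Ud j c g) (c : ℕ → S → G) (u w : H),
      |⟪u, op ρ (Dd Γ k c) w⟫_ℝ - ⟪u, op ρ (Ud k c) w⟫_ℝ| ≤
        2 * lam * (ssum ρ (leafs k c) u * mch ρ Γ k c w)
  | 0, _, c, u, w => by
    have : (Dd Γ 0 c : G → ℝ) = Ud 0 c := rfl
    rw [this, sub_self, abs_zero]
    exact mul_nonneg (by positivity) (mul_nonneg (ssum_nonneg _ _) (mch_nonneg Γ 0 c w))
  | k + 1, hD, c, u, w => by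
    have hSk : Nonempty (Seed S d k) := Seed.nonempty S d hd k
    have hD' : ∀ j < k, ∀ (c : ℕ → S → G) (g : G), Dd Γ j c g ≤ 2 * Ud j c g :=
      fun j hj => hD j (hj.trans (Nat.lt_succ_self k))
    set c' : ℕ → S → G := fun t => c (t + 2 ^ k) with hc'
    have e1 := node_err (ρ := ρ) hlam (hΓ k) (fun v => ival k c (tin Γ k v))
      (fun v => ival k c' (tin Γ k v)) u w
    have e1' : (dst fun p : Seed S d k × Fin (d k) => ival k c (tin Γ k p.1) *
        ival k c' (tin Γ k (Γ k p.1 p.2))) = Dd Γ (k + 1) c := rfl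
    rw [e1'] at e1
    have e2 := err_le hd hlam hΓ k hD' c u (op ρ (Dd Γ k c') w)
    have e3 := err_le hd hlam hΓ k hD' c' (run ρ (leafs k c) u) w
    have hadj : ∀ z : H, ⟪u, op ρ (Ud k c) z⟫_ℝ = ⟪run ρ (leafs k c) u, z⟫_ℝ := by
      intro z
      rw [run_leafs]
      exact adj _ u z
    rw [← hadj, ← hadj] at e3
    rw [op_Ud_succ]
    -- the standard deviation on the left
    have hleft : std ρ (dst fun v : Seed S d k => (ival k c (tin Γ k v))⁻¹) u ≤
        2 * ssum ρ (leafs k c) u := by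
      have hinv : ∀ {Ω : Type} [Fintype Ω] (X : Ω → G) (g : G),
          dst (fun ω => (X ω)⁻¹) g = dst X g⁻¹ := by
        classical
        intro Ω _ X g
        rw [dst_apply, dst_apply]
        congr
        funext ω
        simp only [inv_eq_iff_eq_inv]
      have h1 : std ρ (dst fun v : Seed S d k => (ival k c (tin Γ k v))⁻¹) u ≤
          2 * std ρ (dst fun x : Inp S k => (ival k c x)⁻¹) u := by
        refine std_le_two (letter0 _) (letter0 _) (fun g => ?_) u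
        rw [hinv, hinv]
        exact hD k (Nat.lt_succ_self k) c g⁻¹
      have h2 : std ρ (dst fun x : Inp S k => (ival k c x)⁻¹) u ≤ ssum ρ (leafs k c) u := by
        unfold std drop
        rw [← run_leafs]
        rw [Real.sqrt_le_left (ssum_nonneg _ _)]
        exact loss_le (leafs_letter k c) u
      linarith
    set SL := ssum ρ (leafs k c) u with hSL
    set SR := ssum ρ (leafs k c') (run ρ (leafs k c) u) with hSR
    have hS : ssum ρ (leafs (k + 1) c) u = SL + SR := by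
      simp only [leafs]
      rw [ssum_append]
    have hSL0 : 0 ≤ SL := ssum_nonneg _ _
    have hSR0 : 0 ≤ SR := ssum_nonneg _ _
    rw [hS]
    set M1 := mch ρ Γ k c' w with hM1
    set M2 := mch ρ Γ k c (op ρ (Dd Γ k c') w) with hM2
    set s := std ρ (Dd Γ k c') w with hs
    have hs0 : 0 ≤ s := std_nonneg w
    have hM : mch ρ Γ (k + 1) c w = max M1 (s + M2) := rfl
    rw [hM]
    have f1 : lam * (std ρ (dst fun v : Seed S d k => (ival k c (tin Γ k v))⁻¹) u * s) ≤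
        lam * (2 * SL * s) :=
      mul_le_mul_of_nonneg_left (mul_le_mul_of_nonneg_right hleft hs0) hlam
    have f2 : SL * (s + M2) ≤ SL * max M1 (s + M2) :=
      mul_le_mul_of_nonneg_left (le_max_right _ _) hSL0
    have f3 : SR * M1 ≤ SR * max M1 (s + M2) :=
      mul_le_mul_of_nonneg_left (le_max_left _ _) hSR0
    have e1s : |⟪u, op ρ (Dd Γ (k + 1) c) w⟫_ℝ - ⟪u, op ρ (Dd Γ k c) (op ρ (Dd Γ k c') w)⟫_ℝ| ≤
        lam * (2 * SL * s) := e1.trans f1
    have tri : |⟪u, op ρ (Dd Γ (k + 1) c) w⟫_ℝ -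
        ⟪u, op ρ (Ud k c) (op ρ (Ud k c') w)⟫_ℝ| ≤
        lam * (2 * SL * s) + 2 * lam * (SL * M2) + 2 * lam * (SR * M1) := by
      have := abs_le.1 e1s
      have := abs_le.1 e2
      have := abs_le.1 e3
      rw [abs_le]
      constructor <;> linarith
    refine tri.trans ?_
    have : lam * (2 * SL * s) + 2 * lam * (SL * M2) + 2 * lam * (SR * M1) =
        2 * lam * (SL * (s + M2) + SR * M1) := by ring
    rw [this]
    have h9 : SL * (s + M2) + SR * M1 ≤ (SL + SR) * max M1 (s + M2) := by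
      rw [add_mul]
      exact add_le_add f2 f3
    exact mul_le_mul_of_nonneg_left h9 (by positivity)

end node

end Helper68.INW
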