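import Pool.Agent.Helper68.INW.GroupFool
import Pool.Agent.Helper12.GR.Step
import Pool.Agent.Helper12.GR.Fool
import Pool.Agent.Helper12.GR.Test

set_option autoImplicit false
set_option linter.unusedSectionVars false

/-!
The generator fools programs over monoids whose blocks are orthodox.
-/

namespace Helper68.INW

open Helper12.GR Helper12.BI

lemma expander_pos {V : Type} [Fintype V] [Nonempty V] {d : ℕ} {Γ : V → Fin d → V} {lam : ℝ}
    (h : IsExpander Γ lam) : 0 < d := by
  rcases Nat.eq_zero_or_pos d with hd | hd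
  · exfalso
    subst hd
    have h1 : |mean (fun p : V × Fin 0 => (1 : ℝ) * 1) - mean (fun _ : V => (1 : ℝ)) *
        mean (fun _ : V => (1 : ℝ))| ≤ lam * Real.sqrt (vari (fun _ : V => (1 : ℝ)) *
        vari (fun _ : V => (1 : ℝ))) := h (fun _ => 1) (fun _ => 1)
    have h2 : vari (fun _ : V => (1 : ℝ)) = 0 := by
      unfold vari
      rw [mean_const]
      simp [mean]
    have h3 : mean (fun p : V × Fin 0 => (1 : ℝ) * 1) = 0 := by
      unfold mean
      simp
    rw [h3, h2, mean_const] at h1
    norm_num at h1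
  · exact hd

lemma seed_pos {S : Type} [Fintype S] [Nonempty S] {d : ℕ → ℕ}
    {Γ : ∀ k, Seed S d k → Fin (d k) → Seed S d k} {lam : ℝ}
    (h : ∀ k, IsExpander (Γ k) lam) : ∀ k, 0 < d k := by
  have h1 : ∀ k, Nonempty (Seed S d k) := by
    intro k
    induction k with
    | zero => exact inferInstanceAs (Nonempty S)
    | succ k ih =>
      have : Nonempty (Fin (d k)) := ⟨⟨0, expander_pos (h k)⟩⟩
      exact @instNonemptyProd _ _ ih this
  intro k
  have := h1 k
  exact expander_pos (h k)

section mu

variable {S : Type} [Fintype S] {d : ℕ → ℕ}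

/-- The distribution of the output. -/
noncomputable def gmu (Γ : ∀ k, Seed S d k → Fin (d k) → Seed S d k) (k : ℕ) :
    (Fin (2 ^ k) → S) → ℝ :=
  fun x => frac {v : Seed S d k | (fun t : Fin (2 ^ k) => out Γ k v t) = x}

lemma frac_eq_mean {V : Type} [Fintype V] (A : Set V) :
    frac A = mean (A.indicator fun _ => (1 : ℝ)) := by
  classical
  unfold frac mean
  congr 1
  rw [Nat.card_eq_fintype_card, Fintype.card_subtype, ← Finset.sum_boole]
  refine Finset.sum_congr rfl fun v _ => ?_
  rw [Set.indicator_apply]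

lemma prob_gmu (Γ : ∀ k, Seed S d k → Fin (d k) → Seed S d k) (k : ℕ)
    (A : Set (Fin (2 ^ k) → S)) :
    prob (gmu Γ k) A = frac {v : Seed S d k | (fun t : Fin (2 ^ k) => out Γ k v t) ∈ A} := by
  classical
  unfold prob gmu
  have h : ∀ x : Fin (2 ^ k) → S, A.indicator (fun x =>
      frac {v : Seed S d k | (fun t : Fin (2 ^ k) => out Γ k v t) = x}) x =
      (∑ v : Seed S d k, if (fun t : Fin (2 ^ k) => out Γ k v t) = x then
        (if (fun t : Fin (2 ^ k) => out Γ k v t) ∈ A then (1 : ℝ) else 0) else 0) /
        Fintype.card (Seed S d k) := by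
    intro x
    rw [Set.indicator_apply]
    split_ifs with hx
    · rw [frac_eq_mean]
      unfold mean
      congr 1
      refine Finset.sum_congr rfl fun v _ => ?_
      rw [Set.indicator_apply]
      simp only [Set.mem_ofPred_eq]
      split_ifs with h1 h2
      · rfl
      · exact absurd (h1 ▸ hx) h2
      · rfl
    · symm
      rw [div_eq_zero_iff]
      left
      apply Finset.sum_eq_zero
      intro v _
      split_ifs with h1 h2
      · exact absurd (h1 ▸ h2) hx
      · rfl
      · rfl
  simp only [h]
  rw [← Finset.sum_div, Finset.sum_comm, frac_eq_mean]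
  unfold mean
  congr 1
  refine Finset.sum_congr rfl fun v _ => ?_
  rw [Set.indicator_apply]
  simp

lemma gmu_dist [Nonempty S] (hd : ∀ k, 0 < d k)
    (Γ : ∀ k, Seed S d k → Fin (d k) → Seed S d k) (k : ℕ) : IsDist (gmu Γ k) := by
  classical
  have hne : Nonempty (Seed S d k) := Seed.nonempty S d hd k
  constructor
  · intro x
    unfold gmu frac
    positivity
  · have h := prob_gmu Γ k Set.univ
    have h1 : prob (gmu Γ k) Set.univ = ∑ x, gmu Γ k x := by
      unfold prob
      rw [Set.indicator_univ]
    rw [← h1, h, frac_eq_mean]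
    have h2 : {v : Seed S d k | (fun t : Fin (2 ^ k) => out Γ k v t) ∈ Set.univ} = Set.univ := by
      ext v
      simp
    rw [h2, Set.indicator_univ, mean_const]

lemma prob_unif [Nonempty S] {n : ℕ} (A : Set (Fin n → S)) : prob (unif S n) A = frac A := by
  classical
  rw [← U_eq_prob]
  unfold U frac
  rw [Nat.card_eq_fintype_card (α := Fin n → S)]

/-- The generator and programs over groups, for strings. -/
lemma group_prob [Nonempty S] {G : Type} [Group G] [Fintype G]
    (Γ : ∀ k, Seed S d k → Fin (d k) → Seed S d k) (k : ℕ) (g : Fin (2 ^ k) → S → G) (γ : G) :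
    ∃ c : ℕ → S → G, prob (gmu Γ k) {x | gval (List.finRange (2 ^ k)) g x = γ} = Dd Γ k c γ ∧
      prob (unif S (2 ^ k)) {x | gval (List.finRange (2 ^ k)) g x = γ} = Ud k c γ := by
  classical
  set c : ℕ → S → G := fun t => if h : t < 2 ^ k then g ⟨t, h⟩ else 1 with hc
  have hcg : (fun i : Fin (2 ^ k) => c i) = g := by
    funext i
    rw [hc]
    simp
  refine ⟨c, ?_, ?_⟩
  · rw [prob_gmu, frac_eq_mean]
    unfold Dd
    rw [dst_apply]
    congr
    funext v
    have h1 : (fun t : Fin (2 ^ k) => out Γ k v t) = flatEquiv k (tin Γ k v) := by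
      funext t
      rw [flatEquiv_apply, flat_tin]
    simp only [Set.mem_ofPred_eq]
    rw [h1, ← hcg, gval_flat]
  · rw [prob_unif, frac_eq_mean]
    unfold Ud
    rw [dst_apply]
    unfold mean
    rw [Fintype.card_congr (flatEquiv k), ← Equiv.sum_comp (flatEquiv k)]
    congr 1
    refine Finset.sum_congr rfl fun x _ => ?_
    rw [Set.indicator_apply]
    simp only [Set.mem_ofPred_eq]
    rw [← hcg]
    by_cases hx : ival k c x = γ
    · rw [if_pos hx, if_pos (by rw [gval_flat]; exact hx)]
    · rw [if_neg hx, if_neg (by rw [gval_flat]; exact hx)]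

end mu

section cells

open Classical in
/-- The letters that record the letters at the positions in `Q`. -/
noncomputable def mark {S : Type} {n : ℕ} (Q : Finset (Fin n)) (i : Fin n) (s : S) :
    Q → S → Multiplicative (ZMod 2) :=
  fun j => if (j : Fin n) = i then Pi.mulSingle s (Multiplicative.ofAdd 1) else 1

lemma gval_mark {S : Type} {n : ℕ} (Q : Finset (Fin n)) (x : Fin n → S) (j : Q) :
    gval (List.finRange n) (mark Q) x j = by
      classical
      exact Pi.mulSingle (x j) (Multiplicative.ofAdd 1) := by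
  classical
  have h : ∀ l : List (Fin n), l.Nodup → gval l (mark Q) x j =
      if (j : Fin n) ∈ l then Pi.mulSingle (x j) (Multiplicative.ofAdd 1) else 1 := by
    intro l
    induction l with
    | nil => intro _; rfl
    | cons i l ih =>
      intro hnd
      rw [List.nodup_cons] at hnd
      have h1 : gval (i :: l) (mark Q) x j = mark Q i (x i) j * gval l (mark Q) x j := rfl
      rw [h1, ih hnd.2]
      unfold mark
      by_cases hj : (j : Fin n) = i
      · subst hj
        rw [if_pos rfl, if_neg hnd.1, mul_one, if_pos List.mem_cons_self]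
      · rw [if_neg hj, one_mul]
        simp [hj]
  rw [h _ (List.nodup_finRange n), if_pos (List.mem_finRange _)]

lemma cell_eq {S : Type} {n : ℕ} {G : Type} [Group G] (Q : Finset (Fin n)) (a : Fin n → S)
    (g : Fin n → S → G) (γ : G) :
    cube Q a ∩ {x | gval (List.finRange n) g x = γ} =
      {x | gval (List.finRange n) (fun i s => (g i s, mark Q i s)) x =
        (γ, fun j : Q => by classical exact Pi.mulSingle (a j) (Multiplicative.ofAdd 1))} := by
  classical
  ext x
  simp only [Set.mem_inter_iff, Set.mem_ofPred_eq, gval_prod, Prod.mk.injEq]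
  rw [and_comm]
  refine and_congr Iff.rfl ?_
  constructor
  · intro h
    funext j
    rw [gval_mark, h j j.2]
  · intro h i hi
    have h1 := congrFun h ⟨i, hi⟩
    rw [gval_mark] at h1
    by_contra hne
    have h2 := congrFun h1 (x i)
    simp only [Pi.mulSingle_eq_same] at h2
    rw [Pi.mulSingle_eq_of_ne hne] at h2
    exact absurd h2 (by decide)

end cells

theorem positive (M : Type) [Monoid M] [Finite M] (hO : Orth M) (S : Type) [Fintype S]
    [Nonempty S] {ε : ℝ} (hε : 0 < ε) : ∃ lam : ℝ, 0 < lam ∧ ∀ (d : ℕ → ℕ)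
      (Γ : ∀ k, Seed S d k → Fin (d k) → Seed S d k), (∀ k, IsExpander (Γ k) lam) →
        ∀ k, Fools Γ M k ε := by
  classical
  obtain ⟨Lam, C, tau, h1, h2, h3, h4, h5⟩ := res_all S M hO
  obtain ⟨T, hT⟩ : ∃ T : ℕ, C / Lam ^ T ≤ ε / 2 := by
    have h6 : Filter.Tendsto (fun K : ℕ => C / Lam ^ K) Filter.atTop (nhds 0) :=
      Filter.Tendsto.const_div_atTop (tendsto_pow_atTop_atTop_of_one_lt h1) C
    obtain ⟨K, hK⟩ := (h6.eventually (ge_mem_nhds (show (0 : ℝ) < ε / 2 by positivity))).exists
    exact ⟨K, hK⟩
  obtain ⟨C', hC', hg⟩ := group_fool S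
    (Nat.card (Fin T → M) * (2 ^ Fintype.card S) ^ T)
  set lam := min (1 / C') (ε / 2 * tau ^ T / C') with hlam
  have hlam0 : 0 < lam := by
    apply lt_min <;> positivity
  have hl1 : C' * lam ≤ 1 := by
    have : lam ≤ 1 / C' := min_le_left _ _
    rw [le_div_iff₀ hC'] at this
    linarith
  have hl2 : C' * lam ≤ ε / 2 * tau ^ T := by
    have : lam ≤ ε / 2 * tau ^ T / C' := min_le_right _ _
    rw [le_div_iff₀ hC'] at this
    linarith
  refine ⟨lam, hlam0, fun d Γ hΓ k c F => ?_⟩
  have hd := seed_pos hΓ
  have hpos : pos ((List.finRange (2 ^ k)).map fun i => (i, c i)) = List.finRange (2 ^ k) := by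
    unfold pos
    rw [List.map_map]
    conv_rhs => rw [← List.map_id (List.finRange (2 ^ k))]
    rfl
  have hval : ∀ x, val ((List.finRange (2 ^ k)).map fun i => (i, c i)) x =
      Helper68.INW.value c x := by
    intro x
    unfold val Helper68.INW.value
    rw [List.map_map, List.ofFn_eq_map]
    rfl
  have hres := h5 (Fin (2 ^ k)) ((List.finRange (2 ^ k)).map fun i => (i, c i)) (by
    rw [hpos]
    exact List.nodup_finRange _)
  rw [hpos] at hres
  have hfool := fool_of_res h1.le h3 h4 hres F T (C' * lam) (gmu Γ k) (gmu_dist hd Γ k) ?_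
  · rw [prob_gmu, prob_unif] at hfool
    simp only [Set.mem_ofPred_eq, hval] at hfool
    refine hfool.trans ?_
    have : C' * lam / tau ^ T ≤ ε / 2 := by
      rw [div_le_iff₀ (by positivity)]
      exact hl2
    linarith
  · intro j hj A hA
    rcases cell_test hj hA with rfl | ⟨Q, a, G, iG, iF, g, γ, hQ, hG, rfl⟩
    · have : (0 : ℝ) ≤ C' * lam := by positivity
      simpa [prob] using this
    · have := Fintype.ofFinite G
      rw [cell_eq]
      obtain ⟨c', e1, e2⟩ := group_prob Γ k (fun i s => (g i s, mark Q i s))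
        (γ, fun j : Q => by classical exact Pi.mulSingle (a j) (Multiplicative.ofAdd 1))
      rw [e1, e2]
      refine hg lam hlam0.le hl1 d hd Γ hΓ _ ?_ k c' _
      rw [Nat.card_prod]
      apply Nat.mul_le_mul
      · obtain ⟨N, φ, hφ⟩ := hG
        exact (Nat.card_le_card_of_surjective φ hφ).trans
          (Nat.card_le_card_of_injective _ Subtype.val_injective)
      · rw [Nat.card_eq_fintype_card, Fintype.card_fun, Fintype.card_fun]
        have e3 : Fintype.card (Multiplicative (ZMod 2)) = 2 := by decide
        rw [e3, Fintype.card_coe]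
        exact Nat.pow_le_pow_right (by positivity) hQ

end Helper68.INW
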