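import Pool.Agent.Helper68.INW.Defs
import Pool.Agent.Helper68.INW.Letters
import Pool.Agent.Helper12.GR.Prob

set_option autoImplicit false
set_option linter.unusedSectionVars false

/-!
The tree of the generator and programs over groups.
-/

namespace Helper68.INW

open scoped InnerProductSpace

/-- The inputs as a tree. -/
def Inp (S : Type) : ℕ → Type
  | 0 => S
  | k + 1 => Inp S k × Inp S k

instance Inp.fintype (S : Type) [Fintype S] : ∀ k, Fintype (Inp S k)
  | 0 => inferInstanceAs (Fintype S)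
  | k + 1 => @instFintypeProd _ _ (Inp.fintype S k) (Inp.fintype S k)

instance Inp.nonempty (S : Type) [Nonempty S] : ∀ k, Nonempty (Inp S k)
  | 0 => inferInstanceAs (Nonempty S)
  | k + 1 => @instNonemptyProd _ _ (Inp.nonempty S k) (Inp.nonempty S k)

lemma Seed.nonempty (S : Type) [Nonempty S] (d : ℕ → ℕ) (hd : ∀ k, 0 < d k) :
    ∀ k, Nonempty (Seed S d k)
  | 0 => inferInstanceAs (Nonempty S)
  | k + 1 => by
    have := Seed.nonempty S d hd k
    have : Nonempty (Fin (d k)) := ⟨⟨0, hd k⟩⟩
    exact @instNonemptyProd _ _ (Seed.nonempty S d hd k) this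

variable {S : Type} {d : ℕ → ℕ}

/-- The value of the program on a tree of letters. -/
def ival {M : Type} [Monoid M] : ∀ k, (ℕ → S → M) → Inp S k → M
  | 0, c, s => c 0 s
  | k + 1, c, x => ival k c x.1 * ival k (fun t => c (t + 2 ^ k)) x.2

/-- The output of the generator as a tree. -/
def tin (Γ : ∀ k, Seed S d k → Fin (d k) → Seed S d k) : ∀ k, Seed S d k → Inp S k
  | 0, s => s
  | k + 1, v => (tin Γ k v.1, tin Γ k (Γ k v.1 v.2))

/-- The letters of a tree. -/
def flat : ∀ k, Inp S k → ℕ → S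
  | 0, s, _ => s
  | k + 1, x, t => if t < 2 ^ k then flat k x.1 t else flat k x.2 (t - 2 ^ k)

lemma flat_tin (Γ : ∀ k, Seed S d k → Fin (d k) → Seed S d k) : ∀ (k : ℕ) (v : Seed S d k) (t : ℕ),
    flat k (tin Γ k v) t = out Γ k v t
  | 0, _, _ => rfl
  | k + 1, v, t => by
    simp only [flat, tin, out]
    split_ifs
    · exact flat_tin Γ k _ _
    · exact flat_tin Γ k _ _

lemma ival_eq {M : Type} [Monoid M] : ∀ (k : ℕ) (c : ℕ → S → M) (x : Inp S k),
    ival k c x = ((List.range (2 ^ k)).map fun t => c t (flat k x t)).prod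
  | 0, c, x => by
    simp [ival, flat]
  | k + 1, c, x => by
    simp only [ival]
    rw [ival_eq k, ival_eq k]
    rw [show 2 ^ (k + 1) = 2 ^ k + 2 ^ k by ring, List.range_add, List.map_append, List.prod_append]
    congr 1
    · congr 1
      apply List.map_congr_left
      intro t ht
      rw [List.mem_range] at ht
      simp [flat, ht]
    · rw [List.map_map]
      congr 1
      apply List.map_congr_left
      intro t ht
      simp [flat, add_comm]

lemma flat_inj : ∀ (k : ℕ) (x y : Inp S k), (∀ t < 2 ^ k, flat k x t = flat k y t) → x = y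
  | 0, x, y, h => h 0 (by norm_num)
  | k + 1, x, y, h => by
    have h1 : x.1 = y.1 := flat_inj k _ _ fun t ht => by
      have := h t (by rw [pow_succ]; omega)
      simpa [flat, ht] using this
    have h2 : x.2 = y.2 := flat_inj k _ _ fun t ht => by
      have := h (t + 2 ^ k) (by rw [pow_succ]; omega)
      simpa [flat] using this
    exact Prod.ext h1 h2

lemma card_inp [Fintype S] : ∀ k : ℕ, Fintype.card (Inp S k) = Fintype.card S ^ (2 ^ k)
  | 0 => by
    rw [pow_zero, pow_one]
    rfl
  | k + 1 => by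
    have h : Fintype.card (Inp S (k + 1)) = Fintype.card (Inp S k) * Fintype.card (Inp S k) :=
      Fintype.card_prod _ _
    rw [h, card_inp k, pow_succ, pow_mul, sq]

/-- Trees of letters are strings. -/
noncomputable def flatEquiv [Fintype S] (k : ℕ) : Inp S k ≃ (Fin (2 ^ k) → S) :=
  Equiv.ofBijective (fun x t => flat k x t) (by
    classical
    rw [Fintype.bijective_iff_injective_and_card]
    refine ⟨fun x y h => flat_inj k x y fun t ht => congrFun h ⟨t, ht⟩, ?_⟩
    rw [card_inp]
    simp)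

lemma flatEquiv_apply [Fintype S] (k : ℕ) (x : Inp S k) (t : Fin (2 ^ k)) :
    flatEquiv k x t = flat k x t := rfl

/-! ### Distributions -/

section dist

variable {G : Type} [Group G] [Fintype G]
variable {H : Type} [NormedAddCommGroup H] [InnerProductSpace ℝ H] {ρ : G →* (H ≃ₗᵢ[ℝ] H)}

/-- The mean value of vectors. -/
noncomputable def vm {Ω : Type} [Fintype Ω] (F : Ω → H) : H :=
  (Fintype.card Ω : ℝ)⁻¹ • ∑ ω, F ω

/-- The distribution of a random group element. -/
noncomputable def dst {Ω : Type} [Fintype Ω] (X : Ω → G) : G → ℝ := by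
  classical
  exact fun g => mean fun ω => if X ω = g then 1 else 0

lemma dst_apply [DecidableEq G] {Ω : Type} [Fintype Ω] (X : Ω → G) (g : G) :
    dst X g = mean fun ω => if X ω = g then 1 else 0 := by
  unfold dst
  congr
  funext ω
  congr

lemma sum_dst {Ω : Type} [Fintype Ω] (X : Ω → G) (F : G → H) :
    ∑ g, dst X g • F g = vm fun ω => F (X ω) := by
  classical
  unfold vm
  have h : ∀ g, dst X g • F g = (Fintype.card Ω : ℝ)⁻¹ • ∑ ω, if X ω = g then F (X ω) else 0 := by
    intro g
    rw [dst_apply, mean, div_eq_inv_mul, mul_smul, Finset.sum_smul]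
    congr 1
    refine Finset.sum_congr rfl fun ω _ => ?_
    split_ifs with h
    · rw [h, one_smul]
    · rw [zero_smul]
  simp only [h]
  rw [← Finset.smul_sum, Finset.sum_comm]
  congr 1
  refine Finset.sum_congr rfl fun ω _ => ?_
  simp

lemma op_dst {Ω : Type} [Fintype Ω] (X : Ω → G) (y : H) :
    op ρ (dst X) y = vm fun ω => ρ (X ω) y := by
  unfold op
  exact sum_dst X fun g => ρ g y

lemma vm_prod {A B : Type} [Fintype A] [Fintype B] (F : A → B → H) :
    (vm fun p : A × B => F p.1 p.2) = vm fun a => vm fun b => F a b := by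
  unfold vm
  rw [Fintype.card_prod, Fintype.sum_prod_type, Finset.smul_sum, Finset.smul_sum]
  refine Finset.sum_congr rfl fun a _ => ?_
  rw [smul_smul]
  congr 1
  push_cast
  rw [mul_inv]

lemma map_vm {Ω : Type} [Fintype Ω] (g : G) (F : Ω → H) : ρ g (vm F) = vm fun ω => ρ g (F ω) := by
  unfold vm
  rw [map_smul, map_sum]

lemma inner_vm {Ω : Type} [Fintype Ω] (u : H) (F : Ω → H) :
    ⟪u, vm F⟫_ℝ = mean fun ω => ⟪u, F ω⟫_ℝ := by
  unfold vm mean
  rw [real_inner_smul_right, inner_sum, div_eq_inv_mul]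

lemma vm_const {Ω : Type} [Fintype Ω] [Nonempty Ω] (y : H) : (vm fun _ : Ω => y) = y := by
  unfold vm
  rw [Finset.sum_const, Finset.card_univ, ← Nat.cast_smul_eq_nsmul ℝ, smul_smul,
    inv_mul_cancel₀, one_smul]
  exact_mod_cast Fintype.card_ne_zero

lemma mean_nonneg {Ω : Type} [Fintype Ω] {f : Ω → ℝ} (hf : ∀ ω, 0 ≤ f ω) : 0 ≤ mean f :=
  div_nonneg (Finset.sum_nonneg fun ω _ => hf ω) (Nat.cast_nonneg _)

lemma mean_mono {Ω : Type} [Fintype Ω] {f g : Ω → ℝ} (hf : ∀ ω, f ω ≤ g ω) : mean f ≤ mean g :=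
  div_le_div_of_nonneg_right (Finset.sum_le_sum fun ω _ => hf ω) (Nat.cast_nonneg _)

lemma mean_const {Ω : Type} [Fintype Ω] [Nonempty Ω] (a : ℝ) : (mean fun _ : Ω => a) = a := by
  unfold mean
  rw [Finset.sum_const, Finset.card_univ, nsmul_eq_mul, mul_comm, mul_div_assoc, div_self, mul_one]
  exact_mod_cast Fintype.card_ne_zero

lemma dst_nonneg {Ω : Type} [Fintype Ω] (X : Ω → G) (g : G) : 0 ≤ dst X g := by
  classical
  rw [dst_apply]
  apply mean_nonneg
  intro ω
  split_ifs <;> norm_num

lemma dst_sum {Ω : Type} [Fintype Ω] [Nonempty Ω] (X : Ω → G) : ∑ g, dst X g = 1 := by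
  have h := sum_dst X fun _ => (1 : ℝ)
  simp only [smul_eq_mul, mul_one] at h
  rw [h, vm_const]

lemma dst_ne_zero {Ω : Type} [Fintype Ω] {X : Ω → G} {g : G} (h : dst X g ≠ 0) :
    ∃ ω, X ω = g := by
  classical
  by_contra h'
  push Not at h'
  apply h
  rw [dst_apply]
  simp [h', mean]

lemma dst_pos {Ω : Type} [Fintype Ω] {X : Ω → G} (ω : Ω) : 0 < dst X (X ω) := by
  classical
  rw [dst_apply]
  unfold mean
  apply div_pos
  · apply Finset.sum_pos' (fun ω _ => by split_ifs <;> norm_num)
    exact ⟨ω, Finset.mem_univ ω, by simp⟩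
  · exact_mod_cast Fintype.card_pos_iff.2 ⟨ω⟩

/-- The distribution of a uniform letter. -/
lemma letter_leaf [Fintype S] [Nonempty S] (X : S → G) :
    Letter (1 / (Fintype.card S : ℝ)) (dst X) := by
  classical
  refine ⟨dst_nonneg X, dst_sum X, fun g hg => ?_⟩
  obtain ⟨s, rfl⟩ := dst_ne_zero hg
  rw [dst_apply]
  unfold mean
  apply div_le_div_of_nonneg_right _ (Nat.cast_nonneg _)
  refine le_trans ?_ (Finset.single_le_sum (f := fun ω => if X ω = X s then (1 : ℝ) else 0)
    (fun ω _ => by split_ifs <;> norm_num) (Finset.mem_univ s))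
  simp

end dist

end Helper68.INW
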